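import Pool.Agent.H46.PT.Tie
import Pool.Agent.H46.PR.Lf2

/-!
# The height is full on its leaf, fine times
-/

set_option autoImplicit false

namespace Pool.PT46

open Finset Real
open Pool.Agent.H49.Ent Pool.Agent.H32.Dense Pool.STK Pool.OWN68 Pool.PR46
open Pool.BFL (Pb)

/-- The time of the hop is full given the line, the copy's velocity and a fresh time. -/
theorem full_fresh {Ω Λ Γ 𝒞 𝒟 𝒩 : Type} [Fintype Ω] {p : Ω → ℝ} (hp : IsLaw p) {MT : ℕ} {e : ℝ}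
    {L : Ω → Λ} {t : Ω → ℤ} {G : Ω → Γ} {C : Λ → 𝒞} {D : Λ → 𝒟} {N : Λ → 𝒩}
    (hrec : Recs p MT e L t G G C D N N) :
    Real.log (2 * MT + 1) - 3 * e ≤ CH (P2 p L G) (fun w => t w.1.1)
      (fun w => (t w.2, (D (L w.1.2), L w.1.1))) := by
  have h0 := hp.nonneg
  have hP2 := P2_law hp L G
  have h1 := full_one hp L t G C D N (l := Real.log (2 * MT + 1)) (e := e) hrec.g1 hrec.full hrec.i1
  have h2 : CH (P2 p L G) (fun w => t w.1.1) (fun w => (D (L w.1.2), L w.1.1)) =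
      CH (P1 p G) (fun w => t w.1) (fun w => (D (L w.2), L w.1)) :=
    (P2_f hp L G).CH (fun w => t w.1) (fun w => (D (L w.2), L w.1))
  have h3 : Real.log (2 * MT + 1) - e ≤ CH (P2 p L G) (fun w => t w.2) (fun w => w.1) := by
    have h4 : CH (P2 p L G) (fun w => t w.2) (fun w => (L w.2, w.1)) = CH p t L :=
      CH_glue_snd (P1_law hp G).nonneg h0 (P2_z hp L G) t (Y := L) (fun w => w)
        (fun _ _ _ _ h => h)
    refine hrec.full.trans ?_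
    rw [← h4]
    exact CH_mono_cond hP2.nonneg fun w w' _ _ hz => (Prod.ext_iff.mp hz).2
  have h5 := swap_full hP2.nonneg (fun w : (Ω × Ω) × Ω => t w.1.1)
    (fun w : (Ω × Ω) × Ω => t w.2)
    (fun w : (Ω × Ω) × Ω => (D (L w.1.2), L w.1.1))
    (l := Real.log (2 * MT + 1)) (h := Real.log (2 * MT + 1)) (e₁ := e + e) (e₂ := e)
    (by rw [h2]; exact h1) (by
      refine h3.trans (CH_mono_cond hP2.nonneg fun w w' _ _ hz => ?_)
      try dsimp only at hz ⊢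
      rw [hz]) (by
      exact CH_le_box hP2 (fun w => t w.2) _ fun w hw =>
        hrec.tb _ (P2_pos hp L G hw).2.1)
  refine le_trans (le_of_eq ?_) h5
  ring

/-- **The height is full on its leaf.** -/
theorem leaf_full {Ω Λ Γ 𝒞 𝒟 𝒩 : Type} [Fintype Ω] {p : Ω → ℝ} (hp : IsLaw p) {M MT K r : ℕ}
    (hM : 1 ≤ M) (hMT : M ≤ MT) (hr : 1 ≤ r) (hrM : r ≤ M) {L : Ω → Λ} {t : Ω → ℤ} {G : Ω → Γ} {C : Λ → 𝒞}
    {D : Λ → 𝒟} {N : Λ → 𝒩} {u n : Λ → ℤ → ℤ} {du dn : 𝒟 → ℝ} {ks : Λ → ℝ} {e : ℝ} (he : 0 ≤ e)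
    (hrec : Recs p MT e L t G G C D N N) (hd : Disp p M MT K L t G D u n du dn)
    {κ B η : ℝ} (hB : 0 < B) (hkb : ∀ ω, 0 < p ω → |ks (L ω)| ≤ κ) (hrK : (K : ℝ) * (2 + κ) ≤ r)
    (hgd : Pb (glue p p G G) (fun w => ¬ Alg M r B L D du dn ks w) ≤ η)
    {R : ℝ} (hR : 1 ≤ R) (hRη : R * η ≤ 1 / 2) {q : Ω → ℝ} (hq : IsLaw q)
    (hqd : ∀ ω, q ω ≤ R * p ω) :
    Real.log (2 * M + 1) - (R * η * Real.log (2 * M + 1) + 2 * R * (3 * e + Real.log 2) +
      Real.log (4 * K * M / B + 1) + Real.log (7 + 4 * K) + Real.log 315) ≤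
    CH q (fun ω => u (L ω) (t ω)) (fun ω => (u (L ω) (t ω) / (M : ℤ),
      (leaf M r L t u n ks ω, (t ω, (C (L ω), N (L ω)))))) := by
  classical
  have h0 := hp.nonneg
  have hMr : (1 : ℝ) ≤ M := by exact_mod_cast hM
  have hM0 : (0 : ℝ) < M := by linarith
  have hMTr : (M : ℝ) ≤ MT := by exact_mod_cast hMT
  have hMT0 : (0 : ℝ) < MT := by linarith
  have hMTn : (MT : ℝ) ≠ 0 := hMT0.ne'
  have hrr : (1 : ℝ) ≤ r := by exact_mod_cast hr
  have hr0 : (0 : ℝ) < r := by linarith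
  have hrM' : (r : ℝ) ≤ M := by exact_mod_cast hrM
  have hK0 : (0 : ℝ) ≤ K := Nat.cast_nonneg K
  have hR0 : 0 < R := by linarith
  have hη0 : 0 ≤ η := (Pb_nonneg (P1_law hp G).nonneg _).trans hgd
  have hP1 := P1_law hp G
  have hP2 := P2_law hp L G
  obtain ⟨P, hP⟩ : ∃ P, P = P2 p L G := ⟨_, rfl⟩
  have hPl : IsLaw P := by rw [hP]; exact hP2
  have hPm : Marg P p (fun w => w.2) := by rw [hP]; exact P2_s hp L G
  obtain ⟨Q, hQ⟩ : ∃ Q, Q = tilt P (fun w => w.2) p q := ⟨_, rfl⟩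
  have hQl : IsLaw Q := by rw [hQ]; exact tilt_law hPl hPm hp hq hqd
  have hQm : Marg Q q (fun w => w.2) := by rw [hQ]; exact tilt_marg hPm hp hq hqd
  have hQd : ∀ w, Q w ≤ R * P w := by
    rw [hQ]
    exact tilt_le hPl.nonneg h0 hR0.le hqd
  obtain ⟨Gd, hGd⟩ : ∃ Gd : (Ω × Ω) × Ω → Prop, Gd = fun w => Alg M r B L D du dn ks w.1 :=
    ⟨_, rfl⟩
  -- the mass of the good event
  have hbad : Pb Q (fun w => ¬ Gd w) ≤ R * η := by
    refine (Pb_dens hQd _).trans (mul_le_mul_of_nonneg_left ?_ hR0.le)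
    have h1 : Pb P (fun w => ¬ Gd w) = Pb (glue p p G G) (fun w => ¬ Alg M r B L D du dn ks w) := by
      rw [hP, hGd]
      exact Pb_marg (P2_f hp L G) (fun w => ¬ Alg M r B L D du dn ks w)
    rw [h1]
    exact hgd
  have hgood : 1 - R * η ≤ Pb Q Gd := by
    rw [Pb_compl hQl Gd]
    linarith
  have hgood2 : 1 / 2 ≤ Pb Q Gd := by linarith
  have hgpos : 0 < law Q Gd True := by rw [Pool.NFD.Pb_law]; linarith
  obtain ⟨Q1, hQ1⟩ : ∃ Q1, Q1 = cond Q Gd True := ⟨_, rfl⟩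
  have hQ1l : IsLaw Q1 := by
    rw [hQ1]
    exact ⟨cond_nonneg hQl.nonneg Gd True, sum_cond Q Gd hgpos.ne'⟩
  have hsup : ∀ w, 0 < Q1 w → 0 < P w ∧ Alg M r B L D du dn ks w.1 := by
    intro w hw
    rw [hQ1] at hw
    obtain ⟨h1, h2⟩ := (cond_pos_iff hQl.nonneg Gd True w).mp hw
    have h3 : Gd w := of_eq_true h2
    rw [hGd] at h3
    refine ⟨?_, h3⟩
    by_contra hcon
    have h4 : P w ≤ 0 := not_lt.mp hcon
    have h5 := hQd w
    nlinarith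
  have hQ1d : ∀ w, Q1 w ≤ 2 * R * P w := by
    intro w
    rw [hQ1]
    unfold Pool.Agent.H49.Ent.cond
    split_ifs with h
    · rw [div_le_iff₀ hgpos]
      have h1 : 1 / 2 ≤ law Q Gd True := by rw [Pool.NFD.Pb_law]; exact hgood2
      have h2 := hQd w
      have h3 : 0 ≤ R * P w := mul_nonneg hR0.le (hPl.nonneg w)
      nlinarith
    · have := hPl.nonneg w
      positivity
  -- the data
  obtain ⟨Z0, hZ0⟩ : ∃ Z0 : (Ω × Ω) × Ω → ℤ × (𝒟 × Λ), Z0 = fun w =>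
      (t w.2, (D (L w.1.2), L w.1.1)) := ⟨_, rfl⟩
  have hT : Real.log (2 * MT + 1) - 2 * R * (3 * e + Real.log 2) ≤ CH Q1 (fun w => t w.1.1) Z0 := by
    refine deficit_dens hPl hQ1l (R := 2 * R) (by linarith) hQ1d (fun w => t w.1.1) Z0
      (L := Real.log (2 * MT + 1)) (e := 3 * e) (by linarith) (fun r' hr' hr'p => ?_) ?_
    · refine CH_le_box hr' (fun w => t w.1.1) Z0 fun w hw => ?_
      have h1 := hr'p w hw
      rw [hP] at h1
      exact hrec.tb _ (P1_pos hp G (P2_pos hp L G h1).1).1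
    · rw [hP, hZ0]
      exact full_fresh hp hrec
  -- everything about a pair of samples
  have hall : ∀ w w', 0 < Q1 w → 0 < Q1 w' → Z0 w = Z0 w' →
      (|((u (L w.1.2) (t w.2) : ℝ) - u (L w'.1.2) (t w'.2)) -
        (du (D (L w.1.2)) - du (D (L w.1.1))) * (((t w'.1.1 : ℝ) - t w.1.1) / MT)| ≤ 2 * K ∧
      |((n (L w.1.2) (t w.2) : ℝ) - n (L w'.1.2) (t w'.2)) -
        (dn (D (L w.1.2)) - dn (D (L w.1.1))) * (((t w'.1.1 : ℝ) - t w.1.1) / MT)| ≤ 2 * K) ∧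
      |((t w'.1.1 : ℝ) - t w.1.1) / MT| ≤ 2 ∧ B ≤ |du (D (L w.1.2)) - du (D (L w.1.1))| ∧
      |du (D (L w.1.2)) - du (D (L w.1.1))| ≤ M ∧
      |(dn (D (L w.1.2)) - dn (D (L w.1.1))) - ks (L w.1.2) *
        (du (D (L w.1.2)) - du (D (L w.1.1)))| ≤ r ∧
      |ks (L w.1.2) - ks (L w'.1.2)| * M ≤ 2 * r := by
    intro w w' hw hw' hz
    obtain ⟨a1, a2⟩ := hsup w hw
    obtain ⟨b1, b2⟩ := hsup w' hw'
    rw [hP] at a1 b1
    obtain ⟨a3, a4, a5⟩ := P2_pos hp L G a1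
    obtain ⟨b3, b4, b5⟩ := P2_pos hp L G b1
    obtain ⟨a6, a7, a8⟩ := P1_pos hp G a3
    obtain ⟨b6, b7, b8⟩ := P1_pos hp G b3
    rw [hZ0] at hz
    have z1 : t w.2 = t w'.2 := (Prod.ext_iff.mp hz).1
    have z2 : D (L w.1.2) = D (L w'.1.2) := (Prod.ext_iff.mp (Prod.ext_iff.mp hz).2).1
    have z3 : L w.1.1 = L w'.1.1 := (Prod.ext_iff.mp (Prod.ext_iff.mp hz).2).2
    have hτ : |t w.2| ≤ (MT : ℤ) := hrec.tb _ a4
    obtain ⟨c1, c2, c3⟩ := hd.dis _ _ a6 a7 a8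
    obtain ⟨d1, d2, d3⟩ := hd.dis _ _ b6 b7 b8
    obtain ⟨c4, c5⟩ := c3 (t w.2) hτ
    obtain ⟨d4, d5⟩ := d3 (t w.2) hτ
    rw [← z2, ← z3] at d4 d5
    have t1 : |(t w.1.1 : ℝ)| ≤ MT := by exact_mod_cast hrec.tb _ a6
    have t2 : |(t w'.1.1 : ℝ)| ≤ MT := by exact_mod_cast hrec.tb _ b6
    obtain ⟨g1, g2, g3⟩ := a2
    obtain ⟨k1, k2, k3⟩ := b2
    refine ⟨⟨?_, ?_⟩, ?_, g1, c1, g2, ?_⟩
    · have e : ((u (L w.1.2) (t w.2) : ℝ) - u (L w'.1.2) (t w'.2)) -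
          (du (D (L w.1.2)) - du (D (L w.1.1))) * (((t w'.1.1 : ℝ) - t w.1.1) / MT) =
          (((u (L w.1.2) (t w.2) : ℝ) - u (L w.1.1) (t w.2)) -
            (du (D (L w.1.2)) - du (D (L w.1.1))) * (((t w.2 : ℝ) - t w.1.1) / MT)) -
          (((u (L w'.1.2) (t w.2) : ℝ) - u (L w.1.1) (t w.2)) -
            (du (D (L w.1.2)) - du (D (L w.1.1))) * (((t w.2 : ℝ) - t w'.1.1) / MT)) := by
        rw [← z1]
        field_simp
        ring
      rw [e]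
      exact (abs_sub _ _).trans (by linarith)
    · have e : ((n (L w.1.2) (t w.2) : ℝ) - n (L w'.1.2) (t w'.2)) -
          (dn (D (L w.1.2)) - dn (D (L w.1.1))) * (((t w'.1.1 : ℝ) - t w.1.1) / MT) =
          (((n (L w.1.2) (t w.2) : ℝ) - n (L w.1.1) (t w.2)) -
            (dn (D (L w.1.2)) - dn (D (L w.1.1))) * (((t w.2 : ℝ) - t w.1.1) / MT)) -
          (((n (L w'.1.2) (t w.2) : ℝ) - n (L w.1.1) (t w.2)) -
            (dn (D (L w.1.2)) - dn (D (L w.1.1))) * (((t w.2 : ℝ) - t w'.1.1) / MT)) := by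
        rw [← z1]
        field_simp
        ring
      rw [e]
      exact (abs_sub _ _).trans (by linarith)
    · rw [abs_div, abs_of_pos hMT0, div_le_iff₀ hMT0]
      exact (abs_sub _ _).trans (by linarith)
    · rw [← z3] at k3
      have e : ks (L w.1.2) - ks (L w'.1.2) = (ks (L w.1.2) - ks (L w.1.1)) -
        (ks (L w'.1.2) - ks (L w.1.1)) := by ring
      rw [e]
      have := abs_sub (ks (L w.1.2) - ks (L w.1.1)) (ks (L w'.1.2) - ks (L w.1.1))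
      nlinarith
  -- the pieces of the condition
  have hA := CH_le_add hQ1l.nonneg (fun w => t w.1.1) (fun w => u (L w.1.2) (t w.2)) Z0
  have hT2 : CH Q1 (fun w => t w.1.1) (fun w => (u (L w.1.2) (t w.2), Z0 w)) ≤
      Real.log (4 * K * MT / B + 1) := by
    refine CH_int_const hQ1l _ _ (B := 2 * K * MT / B) ?_ (le_of_eq ?_) (by positivity)
    · intro w w' hw hw' hz
      have z1 : u (L w.1.2) (t w.2) = u (L w'.1.2) (t w'.2) := (Prod.ext_iff.mp hz).1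
      obtain ⟨⟨c1, -⟩, -, c3, -, -, -⟩ := hall w w' hw hw' (Prod.ext_iff.mp hz).2
      rw [z1, sub_self, zero_sub, abs_neg, abs_mul, abs_div, abs_of_pos hMT0] at c1
      push_cast
      rw [abs_sub_comm, le_div_iff₀ hB]
      have h3 : 0 ≤ |(t w'.1.1 : ℝ) - t w.1.1| / MT := by positivity
      have h4 := mul_le_mul_of_nonneg_right c3 h3
      have h5 : B * (|(t w'.1.1 : ℝ) - t w.1.1| / MT) ≤ 2 * K := h4.trans c1
      have e : |(t w'.1.1 : ℝ) - t w.1.1| * B = B * (|(t w'.1.1 : ℝ) - t w.1.1| / MT) * MT := by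
        field_simp
      rw [e]
      exact mul_le_mul_of_nonneg_right h5 hMT0.le
    · ring
  -- the coarse position
  have hm : CH Q1 (fun w => u (L w.1.2) (t w.2) / (M : ℤ)) Z0 ≤ Real.log (7 + 4 * K) := by
    refine CH_int_const hQ1l _ _ (B := 3 + 2 * K) ?_ (le_of_eq (by ring)) (by positivity)
    intro w w' hw hw' hz
    obtain ⟨⟨c1, -⟩, c2, -, c4, -, -⟩ := hall w w' hw hw' hz
    have h1 := ediv_diff hM (u (L w.1.2) (t w.2)) (u (L w'.1.2) (t w'.2))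
    have h2 : |((u (L w.1.2) (t w.2) : ℝ) - u (L w'.1.2) (t w'.2))| ≤ 2 * M + 2 * K := by
      have e : ((u (L w.1.2) (t w.2) : ℝ) - u (L w'.1.2) (t w'.2)) =
          (((u (L w.1.2) (t w.2) : ℝ) - u (L w'.1.2) (t w'.2)) -
            (du (D (L w.1.2)) - du (D (L w.1.1))) * (((t w'.1.1 : ℝ) - t w.1.1) / MT)) +
          (du (D (L w.1.2)) - du (D (L w.1.1))) * (((t w'.1.1 : ℝ) - t w.1.1) / MT) := by ring
      rw [e]
      refine (abs_add_le _ _).trans ?_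
      rw [abs_mul]
      have := mul_le_mul c4 c2 (abs_nonneg _) hM0.le
      linarith
    refine h1.trans ?_
    have h3 : |((u (L w.1.2) (t w.2) : ℝ) - u (L w'.1.2) (t w'.2))| / M ≤ 2 + 2 * K := by
      rw [div_le_iff₀ hM0]
      nlinarith
    linarith
  -- the code of the slope
  have hk : ∀ {T : Type} (Z : (Ω × Ω) × Ω → T), (∀ w w', Z w = Z w' → Z0 w = Z0 w') →
      CH Q1 (fun w => kq M r (ks (L w.1.2))) Z ≤ Real.log 7 := by
    intro T Z hZZ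
    refine CH_int_const hQ1l _ _ (B := 3) ?_ (by norm_num) (by norm_num)
    intro w w' hw hw' hz
    obtain ⟨-, -, -, -, -, c6⟩ := hall w w' hw hw' (hZZ w w' hz)
    have h1 : |ks (L w.1.2) * M / r - ks (L w'.1.2) * M / r| ≤ 2 := by
      rw [← sub_div, ← sub_mul, abs_div, abs_mul, abs_of_pos hM0, abs_of_pos hr0,
        div_le_iff₀ hr0]
      exact c6
    exact (floor_diff h1).trans (by norm_num)
  -- the position of the leaf
  have hc : CH Q1 (fun w => lc M r (kq M r (ks (L w.1.2))) (u (L w.1.2) (t w.2))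
      (n (L w.1.2) (t w.2))) (fun w => (kq M r (ks (L w.1.2)),
        (u (L w.1.2) (t w.2) / (M : ℤ), Z0 w))) ≤ Real.log 15 := by
    refine CH_int_const hQ1l _ _ (B := 7) ?_ (by norm_num) (by norm_num)
    intro w w' hw hw' hz
    have z1 : kq M r (ks (L w.1.2)) = kq M r (ks (L w'.1.2)) := (Prod.ext_iff.mp hz).1
    have z2 : u (L w.1.2) (t w.2) / (M : ℤ) = u (L w'.1.2) (t w'.2) / (M : ℤ) :=
      (Prod.ext_iff.mp (Prod.ext_iff.mp hz).2).1
    have z3 : Z0 w = Z0 w' := (Prod.ext_iff.mp (Prod.ext_iff.mp hz).2).2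
    obtain ⟨⟨c1, c1'⟩, c2, c3, c4, c5, c6⟩ := hall w w' hw hw' z3
    obtain ⟨a1, a2⟩ := hsup w hw
    rw [hP] at a1
    obtain ⟨a3, a4, a5⟩ := P2_pos hp L G a1
    obtain ⟨a6, a7, a8⟩ := P1_pos hp G a3
    have k0 := kq_near hM hr (ks (L w.1.2))
    have k1 := hkb _ a7
    obtain ⟨x, hx⟩ : ∃ x, x = kr M r (kq M r (ks (L w.1.2))) := ⟨_, rfl⟩
    rw [← hx] at k0
    have k2 : |x| ≤ κ + 1 := by
      have e : x = ks (L w.1.2) - (ks (L w.1.2) - x) := by ring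
      rw [e]
      refine (abs_sub _ _).trans ?_
      have : (r : ℝ) / M ≤ 1 := by
        rw [div_le_one hM0]
        exact hrM'
      linarith
    unfold lc
    rw [← z1, ← hx]
    refine (floor_diff (B := 6) ?_).trans (by norm_num)
    rw [← sub_div, abs_div, abs_of_pos hr0, div_le_iff₀ hr0, mod_eq, mod_eq, ← z2]
    obtain ⟨s, hs⟩ : ∃ s, s = ((t w'.1.1 : ℝ) - t w.1.1) / MT := ⟨_, rfl⟩
    rw [← hs] at c1 c1' c2
    obtain ⟨δu, hδu⟩ : ∃ δu, δu = du (D (L w.1.2)) - du (D (L w.1.1)) := ⟨_, rfl⟩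
    obtain ⟨δn, hδn⟩ : ∃ δn, δn = dn (D (L w.1.2)) - dn (D (L w.1.1)) := ⟨_, rfl⟩
    rw [← hδu] at c1 c3 c4 c5
    rw [← hδn] at c1' c5
    have e : ((n (L w.1.2) (t w.2) : ℝ) - x * ((u (L w.1.2) (t w.2) : ℝ) -
        M * ((u (L w.1.2) (t w.2) / (M : ℤ) : ℤ) : ℝ))) -
        ((n (L w'.1.2) (t w'.2) : ℝ) - x * ((u (L w'.1.2) (t w'.2) : ℝ) -
        M * ((u (L w.1.2) (t w.2) / (M : ℤ) : ℤ) : ℝ))) =
        (((n (L w.1.2) (t w.2) : ℝ) - n (L w'.1.2) (t w'.2)) - δn * s) -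
        x * (((u (L w.1.2) (t w.2) : ℝ) - u (L w'.1.2) (t w'.2)) - δu * s) +
        ((δn - ks (L w.1.2) * δu) + (ks (L w.1.2) - x) * δu) * s := by
      ring
    rw [e]
    have f1 : |x * (((u (L w.1.2) (t w.2) : ℝ) - u (L w'.1.2) (t w'.2)) - δu * s)| ≤
        (κ + 1) * (2 * K) := by
      rw [abs_mul]
      exact mul_le_mul k2 c1 (abs_nonneg _) ((abs_nonneg _).trans k2)
    have f2 : |(ks (L w.1.2) - x) * δu| ≤ r := by
      rw [abs_mul]
      refine (mul_le_mul k0 c4 (abs_nonneg _) (by positivity)).trans (le_of_eq ?_)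
      field_simp
    have f3 : |((δn - ks (L w.1.2) * δu) + (ks (L w.1.2) - x) * δu) * s| ≤ (2 * r) * 2 := by
      rw [abs_mul]
      refine mul_le_mul ?_ c2 (abs_nonneg _) (by positivity)
      exact (abs_add_le _ _).trans (by linarith)
    refine (abs_add_le _ _).trans ?_
    have f4 := abs_sub (((n (L w.1.2) (t w.2) : ℝ) - n (L w'.1.2) (t w'.2)) - δn * s)
      (x * (((u (L w.1.2) (t w.2) : ℝ) - u (L w'.1.2) (t w'.2)) - δu * s))
    nlinarith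
  -- together
  obtain ⟨U1, hU1⟩ : ∃ U1 : (Ω × Ω) × Ω → ℤ, U1 = fun w => u (L w.1.2) (t w.2) := ⟨_, rfl⟩
  obtain ⟨m1, hm1⟩ : ∃ m1 : (Ω × Ω) × Ω → ℤ, m1 = fun w => u (L w.1.2) (t w.2) / (M : ℤ) :=
    ⟨_, rfl⟩
  obtain ⟨k1, hk1⟩ : ∃ k1 : (Ω × Ω) × Ω → ℤ, k1 = fun w => kq M r (ks (L w.1.2)) := ⟨_, rfl⟩
  obtain ⟨c1, hc1⟩ : ∃ c1 : (Ω × Ω) × Ω → ℤ, c1 = fun w => lc M r (kq M r (ks (L w.1.2)))
    (u (L w.1.2) (t w.2)) (n (L w.1.2) (t w.2)) := ⟨_, rfl⟩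
  obtain ⟨Z1, hZ1⟩ : ∃ Z1 : (Ω × Ω) × Ω → ℤ × ((ℤ × ℤ) × (ℤ × (𝒞 × 𝒩))), Z1 = fun w =>
    (u (L w.2) (t w.2) / (M : ℤ), (leaf M r L t u n ks w.2, (t w.2, (C (L w.2), N (L w.2))))) :=
    ⟨_, rfl⟩
  have hA' : CH Q1 (fun w => t w.1.1) Z0 ≤ CH Q1 U1 Z0 +
      CH Q1 (fun w => t w.1.1) (fun w => (U1 w, Z0 w)) := CH_le_add hQ1l.nonneg _ _ _
  have hT2' : CH Q1 (fun w => t w.1.1) (fun w => (U1 w, Z0 w)) ≤
      Real.log (4 * K * MT / B + 1) := by
    rw [hU1]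
    exact hT2
  have hm' : CH Q1 m1 Z0 ≤ Real.log (7 + 4 * K) := by
    rw [hm1]
    exact hm
  clear hA hT2 hm
  have hk' := hk (fun w => (m1 w, Z0 w)) fun w w' h => (Prod.ext_iff.mp h).2
  rw [← hk1] at hk'
  have hc' : CH Q1 c1 (fun w => (k1 w, (m1 w, Z0 w))) ≤ Real.log 15 := by
    rw [hc1, hk1, hm1]
    exact hc
  have hW : CH Q1 (fun w => (c1 w, (k1 w, m1 w))) Z0 ≤
      Real.log (7 + 4 * K) + Real.log 7 + Real.log 15 := by
    have g1 := CH_chain hQ1l.nonneg c1 (fun w => (k1 w, m1 w)) Z0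
    have g2 := CH_chain hQ1l.nonneg k1 m1 Z0
    have g3 : CH Q1 c1 (fun w => ((k1 w, m1 w), Z0 w)) ≤ CH Q1 c1 (fun w => (k1 w, (m1 w, Z0 w))) :=
      CH_mono_cond hQ1l.nonneg fun w w' _ _ hz => by
        have z := Prod.ext_iff.mp hz
        have z' := Prod.ext_iff.mp z.1
        exact Prod.ext z'.1 (Prod.ext z'.2 z.2)
    linarith
  have hU := CH_le_add hQ1l.nonneg U1 (fun w => (c1 w, (k1 w, m1 w))) Z0
  have hUZ : CH Q1 U1 (fun w => ((c1 w, (k1 w, m1 w)), Z0 w)) ≤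
      CH Q1 (fun w => u (L w.2) (t w.2)) Z1 := by
    have e1 : CH Q1 U1 Z1 = CH Q1 (fun w => u (L w.2) (t w.2)) Z1 := by
      refine CH_eq_on hQ1l.nonneg (fun w hw => ?_) fun w _ => rfl
      obtain ⟨a1, -⟩ := hsup w hw
      rw [hP] at a1
      rw [hU1]
      have a2 := (P2_pos hp L G a1).2.2
      dsimp only
      rw [a2]
    rw [← e1]
    refine CH_mono_cond hQ1l.nonneg fun w w' hw hw' hz => ?_
    obtain ⟨a1, -⟩ := hsup w hw
    obtain ⟨b1, -⟩ := hsup w' hw'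
    rw [hP] at a1 b1
    obtain ⟨a3, a4, a5⟩ := P2_pos hp L G a1
    obtain ⟨b3, b4, b5⟩ := P2_pos hp L G b1
    obtain ⟨a6, a7, a8⟩ := P1_pos hp G a3
    obtain ⟨b6, b7, b8⟩ := P1_pos hp G b3
    have z0 : Z0 w = Z0 w' := (Prod.ext_iff.mp hz).2
    have zc : c1 w = c1 w' := (Prod.ext_iff.mp (Prod.ext_iff.mp hz).1).1
    have zk : k1 w = k1 w' := (Prod.ext_iff.mp (Prod.ext_iff.mp (Prod.ext_iff.mp hz).1).2).1
    have zm : m1 w = m1 w' := (Prod.ext_iff.mp (Prod.ext_iff.mp (Prod.ext_iff.mp hz).1).2).2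
    rw [hZ0] at z0
    have z1 : t w.2 = t w'.2 := (Prod.ext_iff.mp z0).1
    have z3 : L w.1.1 = L w'.1.1 := (Prod.ext_iff.mp (Prod.ext_iff.mp z0).2).2
    have q1 := hrec.g1 _ _ a6 a7 a8
    have q2 := hrec.g1 _ _ b6 b7 b8
    rw [hc1] at zc
    rw [hk1] at zk
    rw [hm1] at zm
    dsimp only at zc zk zm
    rw [a5, b5] at zc zk zm
    rw [a5] at q1
    rw [b5] at q2
    rw [hZ1]
    have zC : C (L w.2) = C (L w'.2) := by rw [← q1.1, ← q2.1, z3]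
    have zN : N (L w.2) = N (L w'.2) := by rw [← q1.2, ← q2.2, z3]
    exact Prod.ext zm (Prod.ext (Prod.ext zk zc) (Prod.ext z1 (Prod.ext zC zN)))
  have hlast : CH q (fun ω => u (L ω) (t ω)) (fun ω => (u (L ω) (t ω) / (M : ℤ),
      (leaf M r L t u n ks ω, (t ω, (C (L ω), N (L ω)))))) =
      CH Q (fun w => u (L w.2) (t w.2)) Z1 := by
    rw [hZ1]
    exact (hQm.CH (fun ω => u (L ω) (t ω)) (fun ω => (u (L ω) (t ω) / (M : ℤ),
      (leaf M r L t u n ks ω, (t ω, (C (L ω), N (L ω))))))).symm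
  rw [hlast]
  have hev := CH_ev_le hQl (fun w => u (L w.2) (t w.2)) Z1 Gd
  rw [← hQ1] at hev
  have h105 : Real.log 315 = Real.log 7 + Real.log 15 + Real.log 3 := by
    rw [← Real.log_mul (by norm_num) (by norm_num), ← Real.log_mul (by norm_num) (by norm_num)]
    norm_num
  have hfm : Real.log (2 * M + 1) - Real.log (4 * K * M / B + 1) - Real.log 3 ≤
      Real.log (2 * MT + 1) - Real.log (4 * K * MT / B + 1) := by
    obtain ⟨x, hx⟩ : ∃ x : ℝ, x = 4 * K / B := ⟨_, rfl⟩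
    have hx0 : 0 ≤ x := by rw [hx]; positivity
    have e1 : 4 * K * (M : ℝ) / B = x * M := by rw [hx]; ring
    have e2 : 4 * K * (MT : ℝ) / B = x * MT := by rw [hx]; ring
    rw [e1, e2]
    have p1 : 0 < x * M + 1 := by positivity
    have p2 : 0 < x * MT + 1 := by positivity
    have h1 : (2 * (M : ℝ) + 1) * (x * MT + 1) ≤ 3 * ((2 * MT + 1) * (x * M + 1)) := by
      have c1 : 0 ≤ x * M := by positivity
      have c2 : 0 ≤ x * MT := by positivity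
      have c3 : (x * MT) * 1 ≤ (x * MT) * M := mul_le_mul_of_nonneg_left hMr c2
      have c4 : x * MT * M = x * M * MT := by ring
      nlinarith
    have h2 := Real.log_le_log (by positivity) h1
    rw [Real.log_mul (by positivity) p2.ne', Real.log_mul (by norm_num) (by positivity),
      Real.log_mul (by positivity) p1.ne'] at h2
    linarith
  obtain ⟨l, hl⟩ : ∃ l, l = Real.log (2 * M + 1) := ⟨_, rfl⟩
  have hl0 : 0 ≤ l := by
    rw [hl]
    exact Real.log_nonneg (by linarith)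
  rw [← hl] at hfm ⊢
  obtain ⟨X, hX⟩ : ∃ X, X = CH Q1 (fun w => u (L w.2) (t w.2)) Z1 := ⟨_, rfl⟩
  rw [← hX] at hUZ hev
  have hXl : l - 2 * R * (3 * e + Real.log 2) - Real.log (4 * K * M / B + 1) -
      Real.log (7 + 4 * K) - Real.log 315 ≤ X := by
    linarith only [hUZ, hU, hW, hA', hT2', hT, hfm, h105]
  have hX0 : 0 ≤ X := by
    rw [hX]
    exact CH_nonneg hQ1l.nonneg _ _
  refine le_trans ?_ hev
  have hRη0 : 0 ≤ R * η := by positivity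
  by_cases hXl2 : X ≤ l
  · have h1 : (1 - R * η) * X ≤ Pb Q Gd * X := mul_le_mul_of_nonneg_right hgood hX0
    have h2 : R * η * X ≤ R * η * l := mul_le_mul_of_nonneg_left hXl2 hRη0
    nlinarith
  · push Not at hXl2
    have h1 : (1 - R * η) * X ≤ Pb Q Gd * X := mul_le_mul_of_nonneg_right hgood hX0
    have h2 : (1 - R * η) * l ≤ (1 - R * η) * X :=
      mul_le_mul_of_nonneg_left hXl2.le (by linarith)
    have g1 : 0 ≤ Real.log (4 * K * M / B + 1) := Real.log_nonneg (by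
      have : 0 ≤ 4 * K * M / B := by positivity
      linarith)
    have g2 : 0 ≤ Real.log (7 + 4 * (K : ℝ)) := Real.log_nonneg (by linarith)
    have g3 : 0 ≤ Real.log 315 := Real.log_nonneg (by norm_num)
    have g4 : 0 ≤ 2 * R * (3 * e + Real.log 2) := by
      have : 0 ≤ Real.log 2 := Real.log_nonneg (by norm_num)
      positivity
    linarith

end Pool.PT46
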