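import Pool.Agent.H46.PT.Two
import Pool.Agent.H46.PR.Par

/-!
# Two hops, fine times
-/

set_option autoImplicit false

namespace Pool.PT46

open Finset Real
open Pool.Agent.H49.Ent Pool.Agent.H32.Dense Pool.STK Pool.OWN68 Pool.PR46
open Pool.BFL (Pb)

/-- **Two hops: the freedom is small.** -/
theorem two_hops {Ω Λ Γ₁ Γ₂ 𝒞 𝒟 𝒩₁ 𝒩₂ : Type} [Fintype Ω] {p : Ω → ℝ} (hp : IsLaw p)
    {M F MT K : ℕ} (hM : 1 ≤ M) (hF : 1 ≤ F) (hMT : MT = F * M) (L : Ω → Λ) (t : Ω → ℤ) (G₁ : Ω → Γ₁) (G₂ : Ω → Γ₂) (C : Λ → 𝒞)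
    (D : Λ → 𝒟) (N₁ : Λ → 𝒩₁) (N₂ : Λ → 𝒩₂) (u n : Λ → ℤ → ℤ) (x₁ x₂ y₁ y₂ a b : Zt Λ 𝒟 → ℝ)
    {V R e : ℝ} (hR : 0 < R) (he : 0 ≤ e)
    (ht : ∀ ω, 0 < p ω → |t ω| ≤ (MT : ℤ))
    (hG₁ : ∀ ω ω', 0 < p ω → 0 < p ω' → G₁ ω = G₁ ω' → C (L ω) = C (L ω') ∧ N₁ (L ω) = N₁ (L ω'))
    (hG₂ : ∀ ω ω', 0 < p ω → 0 < p ω' → G₂ ω = G₂ ω' → C (L ω) = C (L ω') ∧ N₂ (L ω) = N₂ (L ω'))
    (hN₂ : ∀ ω ω', 0 < p ω → 0 < p ω' → D (L ω) = D (L ω') → N₂ (L ω) = N₂ (L ω'))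
    (hfull : Real.log (2 * MT + 1) - e ≤ CH p t L)
    (hI₁ : CH p (fun ω => D (L ω)) (fun ω => (N₁ (L ω), C (L ω))) - e ≤
      CH p (fun ω => D (L ω)) G₁)
    (hI₂ : CH p (fun ω => D (L ω)) (fun ω => (N₂ (L ω), C (L ω))) - e ≤
      CH p (fun ω => D (L ω)) G₂)
    (hdis : ∀ ω₀ ω₁ ω₁' ω₂, 0 < p ω₀ → 0 < p ω₁ → 0 < p ω₁' → 0 < p ω₂ → G₁ ω₀ = G₁ ω₁ →
      L ω₁ = L ω₁' → G₂ ω₁' = G₂ ω₂ → ∀ τ : ℤ, |τ| ≤ (MT : ℤ) → ∀ z : Zt Λ 𝒟,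
      z = (τ, (D (L ω₂), (D (L ω₁), L ω₀))) →
      |x₁ z| ≤ M ∧ |x₂ z| ≤ M ∧ |y₁ z| ≤ M ∧ |y₂ z| ≤ M ∧
      |(u (L ω₂) τ : ℝ) - (a z - (x₁ z * t ω₀ + x₂ z * t ω₁') / MT)| ≤ K ∧
      |(n (L ω₂) τ : ℝ) - (b z - (y₁ z * t ω₀ + y₂ z * t ω₁') / MT)| ≤ K)
    {J : ℕ} (Vs Us : ℕ → ℝ) (ms : ℕ → ℕ) (hV : ∀ j < J, 1 ≤ Vs j)
    (hcov : ∀ x : ℝ, V ≤ x → x ≤ 2 * M → ∃ j < J, Vs j ≤ x ∧ x ≤ ms j)
    (hNF : ∀ j < J, ∀ q : Ω → ℝ, IsLaw q → (∀ ω, q ω ≤ R * p ω) →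
      CH q (fun ω => n (L ω) (t ω)) (fun ω => ((n (L ω) (t ω) / ms j, u (L ω) (t ω)),
        (t ω, (C (L ω), D (L ω))))) ≤ Us j)
    (hbig : ∀ j < J, Us j + 6 * R * e + Real.log (cst K) < Real.log (Vs j)) :
    Pb (P4 p L G₁ G₂) (fun w => V ≤ frq (x₁ (zt L t D w)) (x₂ (zt L t D w)) (y₁ (zt L t D w))
      (y₂ (zt L t D w))) ≤ J / R := by
  classical
  have hL4 := P4_law hp L G₁ G₂
  rw [← Pb_sum]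
  have h1 : ∑ w, (if V ≤ frq (x₁ (zt L t D w)) (x₂ (zt L t D w)) (y₁ (zt L t D w))
      (y₂ (zt L t D w)) then P4 p L G₁ G₂ w else 0) ≤
      ∑ w, ∑ j ∈ Finset.range J, (if Vs j ≤ frq (x₁ (zt L t D w)) (x₂ (zt L t D w))
        (y₁ (zt L t D w)) (y₂ (zt L t D w)) ∧ frq (x₁ (zt L t D w)) (x₂ (zt L t D w))
        (y₁ (zt L t D w)) (y₂ (zt L t D w)) ≤ ms j then P4 p L G₁ G₂ w else 0) := by
    refine Finset.sum_le_sum fun w _ => ?_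
    have hnn : ∀ j ∈ Finset.range J, 0 ≤ (if Vs j ≤ frq (x₁ (zt L t D w)) (x₂ (zt L t D w))
        (y₁ (zt L t D w)) (y₂ (zt L t D w)) ∧ frq (x₁ (zt L t D w)) (x₂ (zt L t D w))
        (y₁ (zt L t D w)) (y₂ (zt L t D w)) ≤ ms j then P4 p L G₁ G₂ w else 0) := by
      intro j _
      split_ifs
      exacts [hL4.nonneg w, le_rfl]
    by_cases hv : V ≤ frq (x₁ (zt L t D w)) (x₂ (zt L t D w)) (y₁ (zt L t D w)) (y₂ (zt L t D w))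
    · rw [if_pos hv]
      rcases (hL4.nonneg w).eq_or_lt with hz | hz
      · rw [← hz]
        rw [← hz] at hnn
        exact Finset.sum_nonneg hnn
      · obtain ⟨q1, q2, q3⟩ := P4_pos hp L G₁ G₂ hz
        obtain ⟨a1, a2, a3, a4, a5, a6, a7⟩ := P3_sup hp L G₁ G₂ q1
        obtain ⟨-, -, b3, b4, -, -⟩ := hdis _ _ _ _ a1 a2 a3 a4 a5 a6 a7 (t w.2) (ht _ q2)
          (zt L t D w) rfl
        obtain ⟨j, hj, hj1, hj2⟩ := hcov _ hv (frq_le b3 b4)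
        have h2 := Finset.single_le_sum hnn (Finset.mem_range.mpr hj)
        rw [if_pos ⟨hj1, hj2⟩] at h2
        exact h2
    · rw [if_neg hv]
      exact Finset.sum_nonneg hnn
  refine h1.trans ?_
  rw [Finset.sum_comm]
  have h2 : ∀ j ∈ Finset.range J, ∑ w, (if Vs j ≤ frq (x₁ (zt L t D w)) (x₂ (zt L t D w))
        (y₁ (zt L t D w)) (y₂ (zt L t D w)) ∧ frq (x₁ (zt L t D w)) (x₂ (zt L t D w))
        (y₁ (zt L t D w)) (y₂ (zt L t D w)) ≤ ms j then P4 p L G₁ G₂ w else 0) ≤ 1 / R := by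
    intro j hj
    rw [Finset.mem_range] at hj
    refine le_trans (le_of_eq (Finset.sum_congr rfl fun w _ => ?_))
      (two_cell hp hM hF hMT L t G₁ G₂ C D N₁ N₂ u n x₁ x₂ y₁ y₂ a b (hV j hj) hR he ht hG₁ hG₂ hN₂
      hfull hI₁ hI₂ hdis (hNF j hj) (hbig j hj)).le
    congr
  refine (Finset.sum_le_sum h2).trans (le_of_eq ?_)
  rw [Finset.sum_const, Finset.card_range, nsmul_eq_mul]
  ring

end Pool.PT46
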