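import Pool.Agent.H46.PT.Tie
import Pool.Agent.H46.PR.Pks

/-!
# The copies are along the slope, fine times
-/

set_option autoImplicit false

namespace Pool.PT46

open Finset Real
open Pool.Agent.H49.Ent Pool.Agent.H32.Dense Pool.STK Pool.OWN68 Pool.PR46
open Pool.BFL (Pb)

/-- **The copies are along the slope of the line.** -/
theorem alg_tie {Ω Λ Γ 𝒞 𝒟 𝒩 : Type} [Fintype Ω] {p : Ω → ℝ} (hp : IsLaw p)
    {M F MT K : ℕ} (hM : 1 ≤ M) (hF : 1 ≤ F) (hMT : MT = F * M) {L : Ω → Λ} {t : Ω → ℤ} {G : Ω → Γ} {C : Λ → 𝒞}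
    {D : Λ → 𝒟} {N : Λ → 𝒩} {u n : Λ → ℤ → ℤ} {du dn : 𝒟 → ℝ}
    {V R e : ℝ} (hR : 0 < R) (he : 0 ≤ e) (hrec : Recs p MT e L t G G C D N N)
    (hd : Disp p M MT K L t G D u n du dn) {B δ : ℝ} (hB : 0 < B)
    (hal : Pb (glue p p G G) (fun w => |du (D (L w.2)) - du (D (L w.1))| < B) ≤ δ)
    {J : ℕ} {Vs Us : ℕ → ℝ} {ms : ℕ → ℕ} (hcel : Cells p M K V R e L t C D u n J Vs Us ms)
    {r : ℕ} (hV : 0 ≤ V) (hr : 5 * (V * M / B ^ 2) * M ≤ r) :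
    ∃ ks : Λ → ℝ, (∀ ω, 0 < p ω → |ks (L ω)| ≤ M / B) ∧
      Pb (glue p p G G) (fun w => ¬ Alg M r B L D du dn ks w) ≤ 7 * (J / R + 2 * δ) + 2 * δ := by
  have hMr : (1 : ℝ) ≤ M := by exact_mod_cast hM
  have hM0 : (0 : ℝ) < M := by linarith
  obtain ⟨ks, kg, h1, h2, h3⟩ := tie_two hp hM hF hMT hR he hrec hd hB hal hcel
  refine ⟨ks, fun ω hω => (h1 ω hω).1, ?_⟩
  obtain ⟨W, hW⟩ : ∃ W, W = V * M / B ^ 2 := ⟨_, rfl⟩
  have hW0 : 0 ≤ W := by rw [hW]; positivity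
  rw [← hW] at h2 h3 hr
  have hP1 := P1_law hp G
  have hPn : ∀ w, 0 ≤ glue p p G G w := hP1.nonneg
  have m1 : Pb (glue p p G G) (fun w => 2 * W < |kg (G w.1) - ks (L w.1)|) ≤
      2 * (J / R + 2 * δ) :=
    (Pb_marg (P1_f hp G) (fun ω => 2 * W < |kg (G ω) - ks (L ω)|)).le.trans h2
  have m2 : Pb (glue p p G G) (fun w => 2 * W < |kg (G w.2) - ks (L w.2)|) ≤
      2 * (J / R + 2 * δ) :=
    (Pb_marg (P1_s hp G) (fun ω => 2 * W < |kg (G ω) - ks (L ω)|)).le.trans h2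
  have g1 := Pb_imp2 hPn (E := fun w => ¬ Alg M r B L D du dn ks w)
    (F := fun w => |du (D (L w.2)) - du (D (L w.1))| < B)
    (H := fun w => 3 * W * M < |(dn (D (L w.2)) - dn (D (L w.1))) -
      kg (G w.1) * (du (D (L w.2)) - du (D (L w.1)))| ∨
      (2 * W < |kg (G w.1) - ks (L w.1)| ∨ 2 * W < |kg (G w.2) - ks (L w.2)|)) fun w hw hbad => by
      by_contra hcon
      push Not at hcon
      obtain ⟨c1, c2, c3, c4⟩ := hcon
      apply hbad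
      obtain ⟨a1, a2, a3⟩ := P1_pos hp G hw
      obtain ⟨b1, -, -⟩ := hd.dis _ _ a1 a2 a3
      rw [← a3] at c4
      refine ⟨c1, ?_, ?_⟩
      · have e : (dn (D (L w.2)) - dn (D (L w.1))) - ks (L w.2) *
            (du (D (L w.2)) - du (D (L w.1))) = ((dn (D (L w.2)) - dn (D (L w.1))) -
            kg (G w.1) * (du (D (L w.2)) - du (D (L w.1)))) +
            (kg (G w.1) - ks (L w.2)) * (du (D (L w.2)) - du (D (L w.1))) := by ring
        rw [e]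
        refine (abs_add_le _ _).trans ?_
        rw [abs_mul]
        have := mul_le_mul c4 b1 (abs_nonneg _) (by positivity)
        linarith
      · have e : ks (L w.2) - ks (L w.1) = (kg (G w.1) - ks (L w.1)) -
          (kg (G w.1) - ks (L w.2)) := by ring
        rw [e]
        have := abs_sub (kg (G w.1) - ks (L w.1)) (kg (G w.1) - ks (L w.2))
        have h4 : |kg (G w.1) - ks (L w.1) - (kg (G w.1) - ks (L w.2))| ≤ 4 * W := by linarith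
        have := mul_le_mul_of_nonneg_right h4 hM0.le
        nlinarith
  have g2 := Pb_imp2 hPn (E := fun w => 3 * W * M < |(dn (D (L w.2)) - dn (D (L w.1))) -
      kg (G w.1) * (du (D (L w.2)) - du (D (L w.1)))| ∨
      (2 * W < |kg (G w.1) - ks (L w.1)| ∨ 2 * W < |kg (G w.2) - ks (L w.2)|))
    (F := fun w => 3 * W * M < |(dn (D (L w.2)) - dn (D (L w.1))) -
      kg (G w.1) * (du (D (L w.2)) - du (D (L w.1)))|)
    (H := fun w => 2 * W < |kg (G w.1) - ks (L w.1)| ∨ 2 * W < |kg (G w.2) - ks (L w.2)|)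
    fun w _ hw => hw
  have g3 := Pb_imp2 hPn
    (E := fun w => 2 * W < |kg (G w.1) - ks (L w.1)| ∨ 2 * W < |kg (G w.2) - ks (L w.2)|)
    (F := fun w => 2 * W < |kg (G w.1) - ks (L w.1)|)
    (H := fun w => 2 * W < |kg (G w.2) - ks (L w.2)|) fun w _ hw => hw
  linarith

/-- **The copies over `G₁` are along the slope which is known from `G₂`.** -/
theorem par_ks {Ω Λ Γ₁ Γ₂ 𝒞 𝒟 𝒩₁ 𝒩₂ : Type} [Fintype Ω] {p : Ω → ℝ} (hp : IsLaw p)
    {M F MT K : ℕ} (hM : 1 ≤ M) (hF : 1 ≤ F) (hMT : MT = F * M) {L : Ω → Λ} {t : Ω → ℤ} {G₁ : Ω → Γ₁} {G₂ : Ω → Γ₂} {C : Λ → 𝒞}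
    {D : Λ → 𝒟} {N₁ : Λ → 𝒩₁} {N₂ : Λ → 𝒩₂} {u n : Λ → ℤ → ℤ} {du dn : 𝒟 → ℝ} {ks : Λ → ℝ}
    {V R e : ℝ} (hR : 0 < R) (he : 0 ≤ e) (hrec : Recs p MT e L t G₁ G₂ C D N₁ N₂)
    (hd₁ : Disp p M MT K L t G₁ D u n du dn) (hd₂ : Disp p M MT K L t G₂ D u n du dn)
    {r : ℕ} {B δ : ℝ} (hB : 0 < B)
    (hbl : Pb (glue p p G₂ G₂) (fun w => ¬ Alg M r B L D du dn ks w) ≤ δ)
    {J : ℕ} {Vs Us : ℕ → ℝ} {ms : ℕ → ℕ} (hcel : Cells p M K V R e L t C D u n J Vs Us ms) :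
    Pb (glue p p G₁ G₁) (fun w => (V + 2 * r) * M / B < |(dn (D (L w.2)) - dn (D (L w.1))) -
      ks (L w.2) * (du (D (L w.2)) - du (D (L w.1)))|) ≤ J / R + δ := by
  have h0 := hp.nonneg
  have hMr : (1 : ℝ) ≤ M := by exact_mod_cast hM
  have hM0 : (0 : ℝ) < M := by linarith
  have hMT0 : (MT : ℝ) ≠ 0 := by
    rw [hMT]
    push_cast
    have : (0 : ℝ) < F := by exact_mod_cast hF
    positivity
  have hL4 := P4_law hp L G₁ G₂
  have key := two_hops hp (K := 2 * K) hM hF hMT L t G₁ G₂ C D N₁ N₂ u n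
    (fun z => du z.2.2.1 - du (D z.2.2.2)) (fun z => du z.2.1 - du z.2.2.1)
    (fun z => dn z.2.2.1 - dn (D z.2.2.2)) (fun z => dn z.2.1 - dn z.2.2.1)
    (fun z => u z.2.2.2 z.1 + ((du z.2.2.1 - du (D z.2.2.2)) * z.1 +
      (du z.2.1 - du z.2.2.1) * z.1) / MT)
    (fun z => n z.2.2.2 z.1 + ((dn z.2.2.1 - dn (D z.2.2.2)) * z.1 +
      (dn z.2.1 - dn z.2.2.1) * z.1) / MT)
    (V := V) hR he hrec.tb hrec.g1 hrec.g2 hrec.nd hrec.full hrec.i1 hrec.i2 (by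
      intro ω₀ ω₁ ω₁' ω₂ p0 p1 p1' p2 e1 e2 e3 τ hτ z hz
      subst hz
      obtain ⟨b1, b2, b3⟩ := hd₁.dis ω₀ ω₁ p0 p1 e1
      obtain ⟨c1, c2, c3⟩ := hd₂.dis ω₁' ω₂ p1' p2 e3
      obtain ⟨b4, b5⟩ := b3 τ hτ
      obtain ⟨c4, c5⟩ := c3 τ hτ
      rw [← e2] at c1 c2 c4 c5
      refine ⟨b1, c1, b2, c2, ?_, ?_⟩
      · show |(u (L ω₂) τ : ℝ) - ((u (L ω₀) τ + ((du (D (L ω₁)) - du (D (L ω₀))) * τ +
          (du (D (L ω₂)) - du (D (L ω₁))) * τ) / MT) - ((du (D (L ω₁)) - du (D (L ω₀))) * t ω₀ +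
          (du (D (L ω₂)) - du (D (L ω₁))) * t ω₁') / MT)| ≤ ((2 * K : ℕ) : ℝ)
        have e : (u (L ω₂) τ : ℝ) - ((u (L ω₀) τ + ((du (D (L ω₁)) - du (D (L ω₀))) * τ +
          (du (D (L ω₂)) - du (D (L ω₁))) * τ) / MT) - ((du (D (L ω₁)) - du (D (L ω₀))) * t ω₀ +
          (du (D (L ω₂)) - du (D (L ω₁))) * t ω₁') / MT) =
          (((u (L ω₁) τ : ℝ) - u (L ω₀) τ) -
            (du (D (L ω₁)) - du (D (L ω₀))) * (((τ : ℝ) - t ω₀) / MT)) +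
          (((u (L ω₂) τ : ℝ) - u (L ω₁) τ) -
            (du (D (L ω₂)) - du (D (L ω₁))) * (((τ : ℝ) - t ω₁') / MT)) := by
          field_simp
          ring
        rw [e]
        refine (abs_add_le _ _).trans ?_
        push_cast
        linarith
      · show |(n (L ω₂) τ : ℝ) - ((n (L ω₀) τ + ((dn (D (L ω₁)) - dn (D (L ω₀))) * τ +
          (dn (D (L ω₂)) - dn (D (L ω₁))) * τ) / MT) - ((dn (D (L ω₁)) - dn (D (L ω₀))) * t ω₀ +
          (dn (D (L ω₂)) - dn (D (L ω₁))) * t ω₁') / MT)| ≤ ((2 * K : ℕ) : ℝ)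
        have e : (n (L ω₂) τ : ℝ) - ((n (L ω₀) τ + ((dn (D (L ω₁)) - dn (D (L ω₀))) * τ +
          (dn (D (L ω₂)) - dn (D (L ω₁))) * τ) / MT) - ((dn (D (L ω₁)) - dn (D (L ω₀))) * t ω₀ +
          (dn (D (L ω₂)) - dn (D (L ω₁))) * t ω₁') / MT) =
          (((n (L ω₁) τ : ℝ) - n (L ω₀) τ) -
            (dn (D (L ω₁)) - dn (D (L ω₀))) * (((τ : ℝ) - t ω₀) / MT)) +
          (((n (L ω₂) τ : ℝ) - n (L ω₁) τ) -
            (dn (D (L ω₂)) - dn (D (L ω₁))) * (((τ : ℝ) - t ω₁') / MT)) := by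
          field_simp
          ring
        rw [e]
        refine (abs_add_le _ _).trans ?_
        push_cast
        linarith) Vs Us ms hcel.one hcel.cov hcel.nf hcel.big
  have hpair := Pb_marg (P4_pair hp L G₁ G₂) (fun w => ¬ Alg M r B L D du dn ks w)
  have hpair1 := Pb_marg (P4_pair1 hp L G₁ G₂) (fun w => (V + 2 * r) * M / B <
    |(dn (D (L w.2)) - dn (D (L w.1))) - ks (L w.2) * (du (D (L w.2)) - du (D (L w.1)))|)
  rw [← hpair1]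
  refine le_trans ?_ (add_le_add key (hpair.le.trans hbl))
  refine Pb_imp2 hL4.nonneg fun w hz hbad => ?_
  obtain ⟨q1, q2, q3⟩ := P4_pos hp L G₁ G₂ hz
  obtain ⟨a1, a2, a3, a4, a5, a6, a7⟩ := P3_sup hp L G₁ G₂ q1
  by_cases hal : Alg M r B L D du dn ks (w.1.1.2, w.1.2)
  · left
    obtain ⟨g1, g2, g3⟩ := hal
    by_contra hfr
    push Not at hfr
    obtain ⟨b1, b2, -⟩ := hd₁.dis _ _ a1 a2 a5
    obtain ⟨c1, c2, -⟩ := hd₂.dis _ _ a3 a4 a7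
    dsimp only at g1 g2 g3
    rw [← a6] at c1 c2 g1 g2 g3
    have hbl' : |(dn (D (L w.1.2)) - dn (D (L w.1.1.1.2))) - ks (L w.1.1.1.2) *
        (du (D (L w.1.2)) - du (D (L w.1.1.1.2)))| ≤ 2 * r := by
      have e : (dn (D (L w.1.2)) - dn (D (L w.1.1.1.2))) - ks (L w.1.1.1.2) *
          (du (D (L w.1.2)) - du (D (L w.1.1.1.2))) =
          ((dn (D (L w.1.2)) - dn (D (L w.1.1.1.2))) - ks (L w.1.2) *
            (du (D (L w.1.2)) - du (D (L w.1.1.1.2)))) +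
          (ks (L w.1.2) - ks (L w.1.1.1.2)) * (du (D (L w.1.2)) - du (D (L w.1.1.1.2))) := by
        ring
      rw [e]
      refine (abs_add_le _ _).trans ?_
      rw [abs_mul]
      have := mul_le_mul_of_nonneg_left c1 (abs_nonneg (ks (L w.1.2) - ks (L w.1.1.1.2)))
      linarith
    have hfr' : frq (du (D (L w.1.1.1.2)) - du (D (L w.1.1.1.1)))
        (du (D (L w.1.2)) - du (D (L w.1.1.1.2)))
        (dn (D (L w.1.1.1.2)) - dn (D (L w.1.1.1.1)))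
        (dn (D (L w.1.2)) - dn (D (L w.1.1.1.2))) < V := hfr
    exact absurd (alg hMr hB b1 c1 hfr' g1 hbl') (not_le.mpr hbad)
  · exact Or.inr hal

end Pool.PT46
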