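import Pool.Agent.H46.PT.Pks
import Pool.Agent.H46.PT.Lf2
import Pool.Agent.H46.PR.Tep

/-!
# The slope of a tie at explicit constants, fine times
-/

set_option autoImplicit false

namespace Pool.PT46

open Finset Real
open Pool.Agent.H49.Ent Pool.Agent.H32.Dense Pool.STK Pool.OWN68 Pool.PR46
open Pool.BFL (Pb)

/-- The hypotheses for one law. The times are integers of absolute value at most `MT`, a multiple of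
the size `M` of the displacements. -/
structure TieH {Ω Λ Γ₁ Γ₂ 𝒜 ℰ 𝒞 𝒟 𝒩₁ 𝒩₂ : Type} [Fintype Ω] (p : Ω → ℝ) (M MT K Q : ℕ)
    (δ c₀ h α B : ℝ) (L : Ω → Λ) (t : Ω → ℤ) (G₁ : Ω → Γ₁) (G₂ : Ω → Γ₂) (A : Ω → 𝒜)
    (E : Ω → ℰ) (C : Λ → 𝒞) (D : Λ → 𝒟) (N₁ : Λ → 𝒩₁) (N₂ : Λ → 𝒩₂) (u n : Λ → ℤ → ℤ)
    (du dn : 𝒟 → ℝ) : Prop where
  rcs : Recs p MT (δ * Q) L t G₁ G₂ C D N₁ N₂
  d1 : Disp p M MT K L t G₁ D u n du dn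
  d2 : Disp p M MT K L t G₂ D u n du dn
  al : ∀ S : Ω → Prop, c₀ ≤ Pb p S →
      α * Q ≤ CH (cond p S True) (fun ω => ⌊du (D (L ω)) / B⌋) G₂
  nf : NfE p Q δ c₀ h L t C u n
  ac : ∀ ω ω', 0 < p ω → 0 < p ω' → A ω = A ω' → E ω = E ω' → t ω = t ω' ∧ C (L ω) = C (L ω')
  ca : ∀ ω ω', 0 < p ω → 0 < p ω' → t ω = t ω' → C (L ω) = C (L ω') → A ω = A ω' ∧ E ω = E ω'
  fm : CH p E A ≤ CH p E (FF L t A u n) + δ * Q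
  gf : CH p G₂ (fun ω => (FF L t A u n ω, E ω)) ≤ δ * Q

/-- **The height is full on the leaf**, fine times. -/
theorem leaf_t {Ω Λ Γ 𝒞 𝒟 𝒩 : Type} [Fintype Ω] {p : Ω → ℝ} (hp : IsLaw p) {M MT K r : ℕ}
    (hM : 1 ≤ M) (hMT : M ≤ MT) (hr : 1 ≤ r) (hrM : r ≤ M) {L : Ω → Λ} {t : Ω → ℤ} {G : Ω → Γ}
    {C : Λ → 𝒞} {D : Λ → 𝒟} {N : Λ → 𝒩} {u n : Λ → ℤ → ℤ} {du dn : 𝒟 → ℝ} {ks : Λ → ℝ} {e : ℝ}
    (he : 0 ≤ e) (hrec : Recs p MT e L t G G C D N N) (hd : Disp p M MT K L t G D u n du dn)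
    {κ B η : ℝ} (hB : 0 < B) (hkb : ∀ ω, 0 < p ω → |ks (L ω)| ≤ κ) (hrK : (K : ℝ) * (2 + κ) ≤ r)
    (hgd : Pb (glue p p G G) (fun w => ¬ Alg M r B L D du dn ks w) ≤ η)
    {R : ℝ} (hR : 2 ≤ R) (hRη : R * η ≤ 1 / 2) {q : Ω → ℝ} (hq : IsLaw q)
    (hqd : ∀ ω, q ω ≤ R * p ω) :
    Real.log (2 * M + 1) - lsF M K B R η e ≤
      CH q (fun ω => u (L ω) (t ω)) (VV M r L t C (fun _ => ()) u n ks) := by
  have h1 := leaf_full hp hM hMT hr hrM he hrec hd hB hkb hrK hgd (by linarith : 1 ≤ R) hRη hq hqd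
  have h2 : CH q (fun ω => u (L ω) (t ω)) (fun ω => (u (L ω) (t ω) / (M : ℤ),
      (leaf M r L t u n ks ω, (t ω, (C (L ω), N (L ω)))))) ≤
      CH q (fun ω => u (L ω) (t ω)) (VV M r L t C (fun _ => ()) u n ks) :=
    CH_mono_cond hq.nonneg fun ω ω' _ _ z => by
      have z1 := Prod.ext_iff.mp z
      have z2 := Prod.ext_iff.mp z1.2
      have z3 := Prod.ext_iff.mp z2.2
      have z4 := Prod.ext_iff.mp z3.2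
      exact Prod.ext z1.1 (Prod.ext z2.1 (Prod.ext z3.1 (Prod.ext z4.1 rfl)))
  have h3 : Real.log 315 = Real.log 105 + Real.log 3 := by
    rw [← Real.log_mul (by norm_num) (by norm_num)]
    norm_num
  have h4 : Real.log 3 ≤ 2 * Real.log 2 := by
    have : (2 : ℝ) * Real.log 2 = Real.log 4 := by
      rw [show (4 : ℝ) = 2 ^ 2 by norm_num, Real.log_pow]
      norm_num
    rw [this]
    exact Real.log_le_log (by norm_num) (by norm_num)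
  have h5 : 2 * Real.log 2 ≤ R * (e + Real.log 2) := by
    have : 0 ≤ Real.log 2 := Real.log_nonneg (by norm_num)
    nlinarith
  unfold lsF lsE
  linarith

/-- **The slope of a tie**, at explicit constants. -/
theorem tie_core {Ω Λ Γ₁ Γ₂ 𝒜 ℰ 𝒞 𝒟 𝒩₁ 𝒩₂ : Type} [Fintype Ω] {p : Ω → ℝ} (hp : IsLaw p)
    {M F MT K Q r : ℕ} (hM : 1 ≤ M) (hF : 1 ≤ F) (hMT : MT = F * M) (hMQ : M ≤ 2 ^ Q) (hr : 1 ≤ r) (hrM : r ≤ M) (hQ : 3 ≤ Q)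
    {L : Ω → Λ} {t : Ω → ℤ} {G₁ : Ω → Γ₁} {G₂ : Ω → Γ₂} {A : Ω → 𝒜} {E : Ω → ℰ}
    {C : Λ → 𝒞} {D : Λ → 𝒟} {N₁ : Λ → 𝒩₁} {N₂ : Λ → 𝒩₂} {u n : Λ → ℤ → ℤ} {du dn : 𝒟 → ℝ}
    {V R e : ℝ} (hR : 0 < R) (he : 0 ≤ e) (hrec : Recs p MT e L t G₁ G₂ C D N₁ N₂)
    (hd₁ : Disp p M MT K L t G₁ D u n du dn) (hd₂ : Disp p M MT K L t G₂ D u n du dn)
    {B η₁ η : ℝ} (hB : 0 < B)
    (hal : Pb (glue p p G₂ G₂) (fun w => |du (D (L w.2)) - du (D (L w.1))| < B) ≤ η₁)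
    {J₁ : ℕ} {Va Ua : ℕ → ℝ} {ma : ℕ → ℕ} (hcel : Cells p M K V R e L t C D u n J₁ Va Ua ma)
    (hV : 0 ≤ V) (hr5 : 5 * (V * M / B ^ 2) * M ≤ r) (hη0 : 0 ≤ η)
    (hη : 7 * (J₁ / R + 2 * η₁) + 2 * η₁ ≤ η) (hrK : (K : ℝ) * (2 + M / B) ≤ r)
    {R' R₁ e₂ g : ℝ} (hR' : 2 ≤ R') (hRη : R' * η ≤ 1 / 2) (hR₁ : 0 < R₁) (hR₁R : R₁ ≤ R')
    (ac : ∀ ω ω', 0 < p ω → 0 < p ω' → A ω = A ω' → E ω = E ω' →
      t ω = t ω' ∧ C (L ω) = C (L ω'))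
    (ca : ∀ ω ω', 0 < p ω → 0 < p ω' → t ω = t ω' → C (L ω) = C (L ω') →
      A ω = A ω' ∧ E ω = E ω')
    (fm : CH p E A ≤ CH p E (FF L t A u n) + e₂)
    (gf : CH p G₂ (fun ω => (FF L t A u n ω, E ω)) ≤ g)
    (hκ : 2 * (M / B) ≤ 8 * r) (hκQ : M / B ≤ 2 ^ Q)
    {J₂ : ℕ} {V₂ : ℝ} (Vs Us : ℕ → ℝ) (ms : ℕ → ℕ) (hms : ∀ j < J₂, r ≤ ms j)
    (hVs : ∀ j < J₂, 4 * r ≤ Vs j)
    (hcov : ∀ x : ℝ, V₂ ≤ x → x ≤ 2 * (M / B) * M → ∃ j < J₂, Vs j ≤ x ∧ x ≤ ms j)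
    (hnf : ∀ j < J₂, ∀ q : Ω → ℝ, IsLaw q → (∀ ω, q ω ≤ R' * p ω) →
      CH q (fun ω => n (L ω) (t ω)) (fun ω => ((n (L ω) (t ω) / (ms j : ℤ), u (L ω) (t ω)),
        (t ω, C (L ω)))) ≤ Us j)
    (hbig : ∀ j < J₂, Us j + 2 * (lsF M K B R' η e + i2 R₁ e₂) +
      R₁ * (g + (Real.log 10 + 6 * η * Q + Real.log 7)) + Real.log 2565 +
      Real.log (16 * r) < Real.log (Vs j)) :
    ∃ (ks : Λ → ℝ) (kf : 𝒜 × (ℤ × ℤ) → ℝ), (∀ ω, 0 < p ω → |ks (L ω)| ≤ M / B) ∧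
      (∀ ω, 0 < p ω → |kf (FF L t A u n ω)| ≤ M / B) ∧
      Pb p (fun ω => V₂ ≤ |kf (FF L t A u n ω) - ks (L ω)| * M) ≤ J₂ * (1 / R₁) ∧
      Pb (glue p p G₂ G₂) (fun w => ¬ Alg M r B L D du dn ks w) ≤ η ∧
      Pb (glue p p G₁ G₁) (Off ((V + 2 * r) * M / B) L D du dn ks) ≤ J₁ / R + η := by
  have hrec2 : Recs p MT e L t G₂ G₂ C D N₂ N₂ :=
    ⟨hrec.tb, hrec.g2, hrec.g2, hrec.nd, hrec.full, hrec.i2, hrec.i2⟩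
  have hMM : M ≤ MT := by
    rw [hMT]
    exact Nat.le_mul_of_pos_left M hF
  obtain ⟨ks, hkb, hgd⟩ := alg_tie hp hM hF hMT hR he hrec2 hd₂ hB hal hcel hV hr5
  have hgd' : Pb (glue p p G₂ G₂) (fun w => ¬ Alg M r B L D du dn ks w) ≤ η := hgd.trans hη
  have hlf : ∀ q : Ω → ℝ, IsLaw q → (∀ ω, q ω ≤ R' * p ω) → Real.log (2 * M + 1) -
      lsF M K B R' η e ≤ CH q (fun ω => u (L ω) (t ω)) (VV M r L t C (fun _ => ()) u n ks) :=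
    fun q hq hqd => leaf_t hp hM hMM hr hrM he hrec2 hd₂ hB hkb hrK hgd' hR' hRη hq hqd
  have hthr : ThrH p M r R' (lsF M K B R' η e) e₂ (g + (Real.log 10 + 6 * η * Q + Real.log 7))
      L t A E C (fun _ => ()) u n ks := by
    refine ⟨fun ω ω' hω hω' a b => ?_, fun ω ω' hω hω' a b _ => ca ω ω' hω hω' a b, hlf, fm,
      code_few hp hM hMQ hr hQ hκQ hkb hgd' hη0 _ gf⟩
    obtain ⟨y1, y2⟩ := ac ω ω' hω hω' a b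
    exact ⟨y1, y2, rfl⟩
  have hall := thr_all hp hM hr hthr hR₁ hR₁R hkb hκ Vs Us ms hms hVs hcov hnf hbig
  obtain ⟨kf, hf1, hf2⟩ := thr_fun hp (FF L t A u n) ks hkb hall
  exact ⟨ks, kf, hkb, hf1, hf2, hgd', par_ks hp hM hF hMT hR he hrec hd₁ hd₂ hB hgd' hcel⟩

end Pool.PT46
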