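import Pool.Agent.H46.PT.Par
import Pool.Agent.H46.PR.Tie

/-!
# Equal slopes: one direction, fine times
-/

set_option autoImplicit false

namespace Pool.PT46

open Finset Real
open Pool.Agent.H49.Ent Pool.Agent.H32.Dense Pool.STK Pool.OWN68 Pool.PR46
open Pool.BFL (Pb)

/-- Displacement, for the pairs over one record. -/
structure Disp {Ω Λ Γ 𝒟 : Type} (p : Ω → ℝ) (M MT K : ℕ) (L : Ω → Λ) (t : Ω → ℤ)
    (G : Ω → Γ) (D : Λ → 𝒟) (u n : Λ → ℤ → ℤ) (du dn : 𝒟 → ℝ) : Prop where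
  dis : ∀ ω ω', 0 < p ω → 0 < p ω' → G ω = G ω' →
      |du (D (L ω')) - du (D (L ω))| ≤ M ∧ |dn (D (L ω')) - dn (D (L ω))| ≤ M ∧
      ∀ τ : ℤ, |τ| ≤ (MT : ℤ) → |((u (L ω') τ : ℝ) - u (L ω) τ) -
        (du (D (L ω')) - du (D (L ω))) * (((τ : ℝ) - t ω) / MT)| ≤ K ∧
        |((n (L ω') τ : ℝ) - n (L ω) τ) -
        (dn (D (L ω')) - dn (D (L ω))) * (((τ : ℝ) - t ω) / MT)| ≤ K

/-- The records, the context, the natural digits. The times are integers of absolute value at most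
`M`. -/
structure Recs {Ω Λ Γ₁ Γ₂ 𝒞 𝒟 𝒩₁ 𝒩₂ : Type} [Fintype Ω] (p : Ω → ℝ) (M : ℕ) (e : ℝ) (L : Ω → Λ)
    (t : Ω → ℤ) (G₁ : Ω → Γ₁) (G₂ : Ω → Γ₂) (C : Λ → 𝒞) (D : Λ → 𝒟) (N₁ : Λ → 𝒩₁)
    (N₂ : Λ → 𝒩₂) : Prop where
  tb : ∀ ω, 0 < p ω → |t ω| ≤ (M : ℤ)
  g1 : ∀ ω ω', 0 < p ω → 0 < p ω' → G₁ ω = G₁ ω' → C (L ω) = C (L ω') ∧ N₁ (L ω) = N₁ (L ω')
  g2 : ∀ ω ω', 0 < p ω → 0 < p ω' → G₂ ω = G₂ ω' → C (L ω) = C (L ω') ∧ N₂ (L ω) = N₂ (L ω')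
  nd : ∀ ω ω', 0 < p ω → 0 < p ω' → D (L ω) = D (L ω') → N₂ (L ω) = N₂ (L ω')
  full : Real.log (2 * M + 1) - e ≤ CH p t L
  i1 : CH p (fun ω => D (L ω)) (fun ω => (N₁ (L ω), C (L ω))) - e ≤
      CH p (fun ω => D (L ω)) G₁
  i2 : CH p (fun ω => D (L ω)) (fun ω => (N₂ (L ω), C (L ω))) - e ≤
      CH p (fun ω => D (L ω)) G₂

/-- **Equal slopes: one direction.** -/
theorem tie_two {Ω Λ Γ 𝒞 𝒟 𝒩 : Type} [Fintype Ω] {p : Ω → ℝ} (hp : IsLaw p)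
    {M F MT K : ℕ} (hM : 1 ≤ M) (hF : 1 ≤ F) (hMT : MT = F * M) {L : Ω → Λ} {t : Ω → ℤ} {G : Ω → Γ} {C : Λ → 𝒞}
    {D : Λ → 𝒟} {N : Λ → 𝒩} {u n : Λ → ℤ → ℤ} {du dn : 𝒟 → ℝ}
    {V R e : ℝ} (hR : 0 < R) (he : 0 ≤ e) (hrec : Recs p MT e L t G G C D N N)
    (hd : Disp p M MT K L t G D u n du dn) {B δ : ℝ} (hB : 0 < B)
    (hal : Pb (glue p p G G) (fun w => |du (D (L w.2)) - du (D (L w.1))| < B) ≤ δ)
    {J : ℕ} {Vs Us : ℕ → ℝ} {ms : ℕ → ℕ} (hcel : Cells p M K V R e L t C D u n J Vs Us ms) :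
    ∃ (ks : Λ → ℝ) (kg : Γ → ℝ),
      (∀ ω, 0 < p ω → |ks (L ω)| ≤ M / B ∧ |kg (G ω)| ≤ M / B) ∧
      Pb p (fun ω => 2 * (V * M / B ^ 2) < |kg (G ω) - ks (L ω)|) ≤ 2 * (J / R + 2 * δ) ∧
      Pb (glue p p G G) (fun w => 3 * (V * M / B ^ 2) * M <
        |(dn (D (L w.2)) - dn (D (L w.1))) - kg (G w.1) * (du (D (L w.2)) - du (D (L w.1)))|) ≤
          3 * (J / R + 2 * δ) + δ := by
  classical
  have h0 := hp.nonneg
  have hMr : (1 : ℝ) ≤ M := by exact_mod_cast hM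
  have hM0 : (0 : ℝ) < M := by linarith
  have hMT0 : (MT : ℝ) ≠ 0 := by
    rw [hMT]
    push_cast
    have : (0 : ℝ) < F := by exact_mod_cast hF
    positivity
  have hP1 := P1_law hp G
  have hPn : ∀ w, 0 ≤ glue p p G G w := hP1.nonneg
  have hP3 := P3_law hp L G G
  have hP4 := P4_law hp L G G
  obtain ⟨κ, hκ⟩ : ∃ κ : Ω → Ω → ℝ, κ = Pool.PR46.kap L D du dn := ⟨_, rfl⟩
  obtain ⟨W, hW⟩ : ∃ W, W = V * M / B ^ 2 := ⟨_, rfl⟩
  rw [← hW]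
  obtain ⟨η, hη⟩ : ∃ η, η = J / R + 2 * δ := ⟨_, rfl⟩
  rw [← hη]
  -- typical pairs of hops
  obtain ⟨Bad, hBad⟩ : ∃ Bad : Ω → Ω → Ω → Ω → Prop, Bad = fun ω₀ ω₁ ω₁' ω₂ =>
      W < |κ ω₀ ω₁ - κ ω₁' ω₂| ∨ |du (D (L ω₂)) - du (D (L ω₁'))| < B := ⟨_, rfl⟩
  have h3 : Pb (P3 p L G G) (fun w => Bad w.1.1.1 w.1.1.2 w.1.2 w.2) ≤ η := by
    have key := two_hops hp (K := 2 * K) hM hF hMT L t G G C D N N u n
      (fun z => du z.2.2.1 - du (D z.2.2.2)) (fun z => du z.2.1 - du z.2.2.1)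
      (fun z => dn z.2.2.1 - dn (D z.2.2.2)) (fun z => dn z.2.1 - dn z.2.2.1)
      (fun z => u z.2.2.2 z.1 + ((du z.2.2.1 - du (D z.2.2.2)) * z.1 +
        (du z.2.1 - du z.2.2.1) * z.1) / MT)
      (fun z => n z.2.2.2 z.1 + ((dn z.2.2.1 - dn (D z.2.2.2)) * z.1 +
        (dn z.2.1 - dn z.2.2.1) * z.1) / MT)
      (V := V) hR he hrec.tb hrec.g1 hrec.g2 hrec.nd hrec.full hrec.i1 hrec.i2 (by
        intro ω₀ ω₁ ω₁' ω₂ p0 p1 p1' p2 e1 e2 e3 τ hτ z hz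
        subst hz
        obtain ⟨b1, b2, b3⟩ := hd.dis ω₀ ω₁ p0 p1 e1
        obtain ⟨c1, c2, c3⟩ := hd.dis ω₁' ω₂ p1' p2 e3
        obtain ⟨b4, b5⟩ := b3 τ hτ
        obtain ⟨c4, c5⟩ := c3 τ hτ
        rw [← e2] at c1 c2 c4 c5
        refine ⟨b1, c1, b2, c2, ?_, ?_⟩
        · show |(u (L ω₂) τ : ℝ) - ((u (L ω₀) τ + ((du (D (L ω₁)) - du (D (L ω₀))) * τ +
            (du (D (L ω₂)) - du (D (L ω₁))) * τ) / MT) - ((du (D (L ω₁)) - du (D (L ω₀))) * t ω₀ +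
            (du (D (L ω₂)) - du (D (L ω₁))) * t ω₁') / MT)| ≤ ((2 * K : ℕ) : ℝ)
          have e : (u (L ω₂) τ : ℝ) - ((u (L ω₀) τ + ((du (D (L ω₁)) - du (D (L ω₀))) * τ +
            (du (D (L ω₂)) - du (D (L ω₁))) * τ) / MT) - ((du (D (L ω₁)) - du (D (L ω₀))) * t ω₀ +
            (du (D (L ω₂)) - du (D (L ω₁))) * t ω₁') / MT) =
            (((u (L ω₁) τ : ℝ) - u (L ω₀) τ) -
              (du (D (L ω₁)) - du (D (L ω₀))) * (((τ : ℝ) - t ω₀) / MT)) +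
            (((u (L ω₂) τ : ℝ) - u (L ω₁) τ) -
              (du (D (L ω₂)) - du (D (L ω₁))) * (((τ : ℝ) - t ω₁') / MT)) := by
            field_simp
            ring
          rw [e]
          refine (abs_add_le _ _).trans ?_
          push_cast
          linarith
        · show |(n (L ω₂) τ : ℝ) - ((n (L ω₀) τ + ((dn (D (L ω₁)) - dn (D (L ω₀))) * τ +
            (dn (D (L ω₂)) - dn (D (L ω₁))) * τ) / MT) - ((dn (D (L ω₁)) - dn (D (L ω₀))) * t ω₀ +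
            (dn (D (L ω₂)) - dn (D (L ω₁))) * t ω₁') / MT)| ≤ ((2 * K : ℕ) : ℝ)
          have e : (n (L ω₂) τ : ℝ) - ((n (L ω₀) τ + ((dn (D (L ω₁)) - dn (D (L ω₀))) * τ +
            (dn (D (L ω₂)) - dn (D (L ω₁))) * τ) / MT) - ((dn (D (L ω₁)) - dn (D (L ω₀))) * t ω₀ +
            (dn (D (L ω₂)) - dn (D (L ω₁))) * t ω₁') / MT) =
            (((n (L ω₁) τ : ℝ) - n (L ω₀) τ) -
              (dn (D (L ω₁)) - dn (D (L ω₀))) * (((τ : ℝ) - t ω₀) / MT)) +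
            (((n (L ω₂) τ : ℝ) - n (L ω₁) τ) -
              (dn (D (L ω₂)) - dn (D (L ω₁))) * (((τ : ℝ) - t ω₁') / MT)) := by
            field_simp
            ring
          rw [e]
          refine (abs_add_le _ _).trans ?_
          push_cast
          linarith) Vs Us ms hcel.one hcel.cov hcel.nf hcel.big
    have hp1 := Pb_marg (P4_pair1 hp L G G) (fun w => |du (D (L w.2)) - du (D (L w.1))| < B)
    have hp2 := Pb_marg (P4_pair hp L G G) (fun w => |du (D (L w.2)) - du (D (L w.1))| < B)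
    rw [← Pb_marg (P4_f hp L G G) (fun w => Bad w.1.1.1 w.1.1.2 w.1.2 w.2)]
    have g1 := Pb_imp2 hP4.nonneg
      (E := fun w => Bad w.1.1.1.1 w.1.1.1.2 w.1.1.2 w.1.2)
      (F := fun w => V ≤ frq (du (zt L t D w).2.2.1 - du (D (zt L t D w).2.2.2))
        (du (zt L t D w).2.1 - du (zt L t D w).2.2.1)
        (dn (zt L t D w).2.2.1 - dn (D (zt L t D w).2.2.2))
        (dn (zt L t D w).2.1 - dn (zt L t D w).2.2.1))
      (H := fun w => |du (D (L w.1.1.1.2)) - du (D (L w.1.1.1.1))| < B ∨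
        |du (D (L w.1.2)) - du (D (L w.1.1.2))| < B) fun w hw hbad => by
      by_contra hcon
      push Not at hcon
      obtain ⟨hf, hb1, hb2⟩ := hcon
      obtain ⟨q1, q2, q3⟩ := P4_pos hp L G G hw
      obtain ⟨a1, a2, a3, a4, a5, a6, a7⟩ := P3_sup hp L G G q1
      obtain ⟨b1, -, -⟩ := hd.dis _ _ a1 a2 a5
      obtain ⟨c1, -, -⟩ := hd.dis _ _ a3 a4 a7
      rw [hBad] at hbad
      rcases hbad with hbad | hbad
      · have hf' : frq (du (D (L w.1.1.1.2)) - du (D (L w.1.1.1.1)))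
            (du (D (L w.1.2)) - du (D (L w.1.1.2)))
            (dn (D (L w.1.1.1.2)) - dn (D (L w.1.1.1.1)))
            (dn (D (L w.1.2)) - dn (D (L w.1.1.2))) < V := by
          rw [← a6]
          exact hf
        have := kap_near hMr hB b1 c1 hf' hb1 hb2
        rw [hκ, hW] at hbad
        exact absurd this (not_le.mpr hbad)
      · exact absurd hb2 (not_le.mpr hbad)
    have g2 := Pb_imp2 hP4.nonneg
      (E := fun w => |du (D (L w.1.1.1.2)) - du (D (L w.1.1.1.1))| < B ∨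
        |du (D (L w.1.2)) - du (D (L w.1.1.2))| < B)
      (F := fun w => |du (D (L w.1.1.1.2)) - du (D (L w.1.1.1.1))| < B)
      (H := fun w => |du (D (L w.1.2)) - du (D (L w.1.1.2))| < B) fun w _ hw => hw
    have g3 : Pb (P4 p L G G) (fun w => |du (D (L w.1.1.1.2)) - du (D (L w.1.1.1.1))| < B) ≤ δ :=
      hp1.le.trans hal
    have g4 : Pb (P4 p L G G) (fun w => |du (D (L w.1.2)) - du (D (L w.1.1.2))| < B) ≤ δ :=
      hp2.le.trans hal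
    have g5 := key
    rw [hη]
    linarith
  -- the selection
  obtain ⟨sel2, s2a, s2b⟩ := glue_select (P2_law hp L G) hp (P3_z hp L G G)
    (fun w ω₂ => Bad w.1.1 w.1.2 w.2 ω₂)
  obtain ⟨sel1, s1a, s1b⟩ := glue_select (P1_law hp G) hp (P2_z hp L G)
    (fun w ω₁' => Bad w.1 w.2 ω₁' (sel2 (G ω₁')))
  have s1 : Pb (P1 p G) (fun w => Bad w.1 w.2 (sel1 (L w.2)) (sel2 (G (sel1 (L w.2))))) ≤ η :=
    s1b.trans (s2b.trans h3)
  -- the slope of a line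
  obtain ⟨ks, hks⟩ : ∃ ks : Λ → ℝ, ∀ l, ks l =
      if B ≤ |du (D (L (sel2 (G (sel1 l))))) - du (D (L (sel1 l)))| then
        κ (sel1 l) (sel2 (G (sel1 l))) else 0 := ⟨_, fun _ => rfl⟩
  -- the partner is a partner
  have hsel : ∀ ω, 0 < p ω → 0 < p (sel1 (L ω)) ∧ 0 < p (sel2 (G (sel1 (L ω)))) ∧
      G (sel1 (L ω)) = G (sel2 (G (sel1 (L ω)))) := by
    intro ω hω
    have hd1 : 0 < P1 p G (ω, ω) := (glue_pos_iff h0 h0 _).mpr ⟨hω, hω, rfl⟩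
    obtain ⟨a1, a2⟩ := s1a (ω, ω) hd1
    have hd2 : 0 < P2 p L G ((ω, ω), sel1 (L ω)) :=
      (glue_pos_iff hP1.nonneg h0 _).mpr ⟨hd1, a1, a2.symm⟩
    obtain ⟨b1, b2⟩ := s2a ((ω, ω), sel1 (L ω)) hd2
    exact ⟨a1, b1, b2.symm⟩
  have hksb : ∀ ω, 0 < p ω → |ks (L ω)| ≤ M / B := by
    intro ω hω
    rw [hks]
    split_ifs with hb
    · obtain ⟨a1, a2, a3⟩ := hsel ω hω
      obtain ⟨-, c2, -⟩ := hd.dis _ _ a1 a2 a3
      rw [hκ]
      unfold Pool.PR46.kap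
      rw [abs_div]
      exact div_le_div₀ hM0.le c2 hB hb
    · rw [abs_zero]
      positivity
  have hk1 : Pb (glue p p G G) (fun w => W < |κ w.1 w.2 - ks (L w.2)|) ≤ η := by
    refine (Pb_imp hPn fun w _ hw => ?_).trans s1
    rw [hBad]
    rw [hks] at hw
    by_cases hb : B ≤ |du (D (L (sel2 (G (sel1 (L w.2)))))) - du (D (L (sel1 (L w.2))))|
    · rw [if_pos hb] at hw
      exact Or.inl hw
    · exact Or.inr (not_le.mp hb)
  have hk0 : Pb (glue p p G G) (fun w => W < |κ w.1 w.2 - ks (L w.1)|) ≤ η := by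
    rw [Pb_sym]
    refine (Pb_imp hPn fun w _ hw => ?_).trans hk1
    have e : κ w.swap.1 w.swap.2 = κ w.1 w.2 := by
      rw [hκ]
      exact kap_symm L D du dn w.2 w.1
    rw [e] at hw
    exact hw
  have hk2 : Pb (glue p p G G) (fun w => 2 * W < |ks (L w.2) - ks (L w.1)|) ≤ 2 * η := by
    have g1 := Pb_imp2 hPn (E := fun w => 2 * W < |ks (L w.2) - ks (L w.1)|)
      (F := fun w => W < |κ w.1 w.2 - ks (L w.2)|) (H := fun w => W < |κ w.1 w.2 - ks (L w.1)|)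
      fun w _ hw => by
        by_contra hcon
        push Not at hcon
        obtain ⟨c1, c2⟩ := hcon
        have e : ks (L w.2) - ks (L w.1) = (κ w.1 w.2 - ks (L w.1)) - (κ w.1 w.2 - ks (L w.2)) := by
          ring
        rw [e] at hw
        have := abs_sub (κ w.1 w.2 - ks (L w.1)) (κ w.1 w.2 - ks (L w.2))
        linarith
    linarith
  -- the slope of a record
  obtain ⟨sel, sa, sb⟩ := glue_select hp hp (X := G) (Y := G) (fun _ => rfl)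
    (fun ω ω' => 2 * W < |ks (L ω') - ks (L ω)|)
  have hkg : Pb p (fun ω => 2 * W < |ks (L (sel (G ω))) - ks (L ω)|) ≤ 2 * η := sb.trans hk2
  refine ⟨ks, fun g => ks (L (sel g)), fun ω hω => ⟨hksb ω hω, hksb _ (sa ω hω).1⟩, hkg, ?_⟩
  have hkg1 : Pb (glue p p G G) (fun w => 2 * W < |ks (L (sel (G w.1))) - ks (L w.1)|) ≤ 2 * η := by
    exact (Pb_marg (P1_f hp G) (fun ω => 2 * W < |ks (L (sel (G ω))) - ks (L ω)|)).le.trans hkg
  have g1 := Pb_imp2 hPn (E := fun w => 3 * W * M < |(dn (D (L w.2)) - dn (D (L w.1))) -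
      ks (L (sel (G w.1))) * (du (D (L w.2)) - du (D (L w.1)))|)
    (F := fun w => W < |κ w.1 w.2 - ks (L w.1)| ∨ 2 * W < |ks (L (sel (G w.1))) - ks (L w.1)|)
    (H := fun w => |du (D (L w.2)) - du (D (L w.1))| < B) fun w hw hbad => by
      by_contra hcon
      push Not at hcon
      obtain ⟨⟨c1, c2⟩, c3⟩ := hcon
      obtain ⟨a1, a2, a3⟩ := P1_pos hp G hw
      obtain ⟨b1, -, -⟩ := hd.dis _ _ a1 a2 a3
      have hx : du (D (L w.2)) - du (D (L w.1)) ≠ 0 := abs_pos.mp (hB.trans_le c3)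
      have e : (dn (D (L w.2)) - dn (D (L w.1))) -
          ks (L (sel (G w.1))) * (du (D (L w.2)) - du (D (L w.1))) =
          ((κ w.1 w.2 - ks (L w.1)) - (ks (L (sel (G w.1))) - ks (L w.1))) *
            (du (D (L w.2)) - du (D (L w.1))) := by
        rw [hκ]
        unfold Pool.PR46.kap
        field_simp
        ring
      rw [e, abs_mul] at hbad
      have g2 := abs_sub (κ w.1 w.2 - ks (L w.1)) (ks (L (sel (G w.1))) - ks (L w.1))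
      have g3 : |κ w.1 w.2 - ks (L w.1) - (ks (L (sel (G w.1))) - ks (L w.1))| ≤ 3 * W := by
        linarith
      have g4 := mul_le_mul g3 b1 (abs_nonneg _) ((abs_nonneg _).trans g3)
      linarith
  have g5 := Pb_imp2 hPn
    (E := fun w => W < |κ w.1 w.2 - ks (L w.1)| ∨ 2 * W < |ks (L (sel (G w.1))) - ks (L w.1)|)
    (F := fun w => W < |κ w.1 w.2 - ks (L w.1)|)
    (H := fun w => 2 * W < |ks (L (sel (G w.1))) - ks (L w.1)|) fun w _ hw => hw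
  linarith

end Pool.PT46
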