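import Pool.Agent.H46.PT.Wdg

/-!
# Two hops, one cell, fine times
-/

set_option autoImplicit false

namespace Pool.PT46

open Finset Real
open Pool.Agent.H49.Ent Pool.Agent.H32.Dense Pool.STK Pool.OWN68 Pool.PR46
open Pool.BFL (Pb)

open Classical in
/-- **Two hops, one cell.** -/
theorem two_cell {Ω Λ Γ₁ Γ₂ 𝒞 𝒟 𝒩₁ 𝒩₂ : Type} [Fintype Ω] {p : Ω → ℝ} (hp : IsLaw p)
    {M F MT K m : ℕ} (hM : 1 ≤ M) (hF1 : 1 ≤ F) (hMT : MT = F * M) (L : Ω → Λ) (t : Ω → ℤ) (G₁ : Ω → Γ₁) (G₂ : Ω → Γ₂) (C : Λ → 𝒞)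
    (D : Λ → 𝒟) (N₁ : Λ → 𝒩₁) (N₂ : Λ → 𝒩₂) (u n : Λ → ℤ → ℤ) (x₁ x₂ y₁ y₂ a b : Zt Λ 𝒟 → ℝ)
    {V R e U : ℝ} (hV : 1 ≤ V) (hR : 0 < R) (he : 0 ≤ e)
    (ht : ∀ ω, 0 < p ω → |t ω| ≤ (MT : ℤ))
    (hG₁ : ∀ ω ω', 0 < p ω → 0 < p ω' → G₁ ω = G₁ ω' → C (L ω) = C (L ω') ∧ N₁ (L ω) = N₁ (L ω'))
    (hG₂ : ∀ ω ω', 0 < p ω → 0 < p ω' → G₂ ω = G₂ ω' → C (L ω) = C (L ω') ∧ N₂ (L ω) = N₂ (L ω'))
    (hN₂ : ∀ ω ω', 0 < p ω → 0 < p ω' → D (L ω) = D (L ω') → N₂ (L ω) = N₂ (L ω'))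
    (hfull : Real.log (2 * MT + 1) - e ≤ CH p t L)
    (hI₁ : CH p (fun ω => D (L ω)) (fun ω => (N₁ (L ω), C (L ω))) - e ≤
      CH p (fun ω => D (L ω)) G₁)
    (hI₂ : CH p (fun ω => D (L ω)) (fun ω => (N₂ (L ω), C (L ω))) - e ≤
      CH p (fun ω => D (L ω)) G₂)
    (hdis : ∀ ω₀ ω₁ ω₁' ω₂, 0 < p ω₀ → 0 < p ω₁ → 0 < p ω₁' → 0 < p ω₂ → G₁ ω₀ = G₁ ω₁ →
      L ω₁ = L ω₁' → G₂ ω₁' = G₂ ω₂ → ∀ τ : ℤ, |τ| ≤ (MT : ℤ) → ∀ z : Zt Λ 𝒟,
      z = (τ, (D (L ω₂), (D (L ω₁), L ω₀))) →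
      |x₁ z| ≤ M ∧ |x₂ z| ≤ M ∧ |y₁ z| ≤ M ∧ |y₂ z| ≤ M ∧
      |(u (L ω₂) τ : ℝ) - (a z - (x₁ z * t ω₀ + x₂ z * t ω₁') / MT)| ≤ K ∧
      |(n (L ω₂) τ : ℝ) - (b z - (y₁ z * t ω₀ + y₂ z * t ω₁') / MT)| ≤ K)
    (hNF : ∀ q : Ω → ℝ, IsLaw q → (∀ ω, q ω ≤ R * p ω) →
      CH q (fun ω => n (L ω) (t ω)) (fun ω => ((n (L ω) (t ω) / m, u (L ω) (t ω)),
        (t ω, (C (L ω), D (L ω))))) ≤ U)
    (hbig : U + 6 * R * e + Real.log (cst K) < Real.log V) :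
    ∑ w, (if V ≤ frq (x₁ (zt L t D w)) (x₂ (zt L t D w)) (y₁ (zt L t D w)) (y₂ (zt L t D w)) ∧
      frq (x₁ (zt L t D w)) (x₂ (zt L t D w)) (y₁ (zt L t D w)) (y₂ (zt L t D w)) ≤ m
      then P4 p L G₁ G₂ w else 0) < 1 / R := by
  have h0 := hp.nonneg
  have hMr : (1 : ℝ) ≤ M := by exact_mod_cast hM
  have hL4 := P4_law hp L G₁ G₂
  obtain ⟨P, hP⟩ : ∃ P, P = P4 p L G₁ G₂ := ⟨_, rfl⟩
  obtain ⟨φ, hφ⟩ : ∃ φ : Zt Λ 𝒟 → ℝ, φ = fun z => frq (x₁ z) (x₂ z) (y₁ z) (y₂ z) := ⟨_, rfl⟩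
  obtain ⟨Z, hZ⟩ : ∃ Z, Z = zt L t D := ⟨_, rfl⟩
  obtain ⟨E, hE⟩ : ∃ E : (((Ω × Ω) × Ω) × Ω) × Ω → Prop, E = fun w => V ≤ φ (Z w) ∧ φ (Z w) ≤ m :=
    ⟨_, rfl⟩
  have el1 : ∑ w, (if V ≤ frq (x₁ (zt L t D w)) (x₂ (zt L t D w)) (y₁ (zt L t D w))
      (y₂ (zt L t D w)) ∧ frq (x₁ (zt L t D w)) (x₂ (zt L t D w)) (y₁ (zt L t D w))
      (y₂ (zt L t D w)) ≤ m then P4 p L G₁ G₂ w else 0) = law P E True := by
    unfold law
    refine Finset.sum_congr rfl fun w _ => ?_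
    simp only [hE, hφ, hZ, hP, eq_iff_iff, iff_true]
  rw [el1]
  by_contra hcon
  push Not at hcon
  rw [← hP] at hL4
  have hR' : 0 < 1 / R := by positivity
  have hE0 : 0 < law P E True := hR'.trans_le hcon
  obtain ⟨Q, hQ⟩ : ∃ Q, Q = cond P E True := ⟨_, rfl⟩
  have hQlaw : IsLaw Q := by
    rw [hQ]
    exact ⟨cond_nonneg hL4.nonneg E True, sum_cond P E hE0.ne'⟩
  have hsup : ∀ w, 0 < Q w → 0 < P4 p L G₁ G₂ w ∧ V ≤ φ (Z w) ∧ φ (Z w) ≤ m := by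
    intro w hw
    rw [hQ] at hw
    obtain ⟨h1, h2⟩ := (cond_pos_iff hL4.nonneg E True w).mp hw
    rw [hP] at h1
    have h3 : E w := of_eq_true h2
    rw [hE] at h3
    exact ⟨h1, h3⟩
  -- fullness
  have hT1 : ∀ w, 0 < P4 p L G₁ G₂ w → |t w.1.1.1.1| ≤ (MT : ℤ) := fun w hw =>
    ht _ (P3_sup hp L G₁ G₂ (P4_pos hp L G₁ G₂ hw).1).1
  have hT2 : ∀ w, 0 < P4 p L G₁ G₂ w → |t w.1.1.2| ≤ (MT : ℤ) := fun w hw =>
    ht _ (P3_sup hp L G₁ G₂ (P4_pos hp L G₁ G₂ hw).1).2.2.1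
  have hτ : ∀ w, 0 < P4 p L G₁ G₂ w → |t w.2| ≤ (MT : ℤ) := fun w hw =>
    ht _ (P4_pos hp L G₁ G₂ hw).2.1
  have hF : 2 * Real.log (2 * MT + 1) - 6 * e ≤
      CH P (fun w => (t w.1.1.1.1, t w.1.1.2)) Z := by
    rw [hP, hZ]
    exact full_two hp L t G₁ G₂ C D N₁ N₂ hG₁ hG₂ hN₂
      (fun {A T} _ {q} hq pr Z' hpr => CH_le_box hq (fun a => t (pr a)) Z' fun a ha =>
        ht _ (hpr a ha)) hfull hI₁ hI₂
  have hFQ : 2 * Real.log (2 * MT + 1) - 6 * e / (1 / R) ≤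
      CH Q (fun w => (t w.1.1.1.1, t w.1.1.2)) Z := by
    rw [hQ]
    refine deficit_ev hL4 (fun w => (t w.1.1.1.1, t w.1.1.2)) Z (L := 2 * Real.log (2 * MT + 1))
      (e := 6 * e) hR' (by linarith) (fun q hq hqp => ?_) hF E (fun w w' hz => ?_) hcon
    · rw [CH_chain2 hq.nonneg (fun w : (((Ω × Ω) × Ω) × Ω) × Ω => t w.1.1.1.1)
        (fun w => t w.1.1.2) Z]
      have g1 := CH_le_box hq (fun w => t w.1.1.1.1) Z fun w hw => hT1 w (by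
        rw [← hP]
        exact hqp w hw)
      have g2 := CH_le_box hq (fun w => t w.1.1.2) (fun w => (t w.1.1.1.1, Z w)) fun w hw =>
        hT2 w (by
          rw [← hP]
          exact hqp w hw)
      linarith
    · rw [hE]
      try dsimp only
      rw [hz]
  have hRe : 6 * e / (1 / R) = 6 * R * e := by
    field_simp
  rw [hRe] at hFQ
  -- the core
  have hcore := wdg_fine hQlaw (K := K) (m := m) hM hF1 hMT (fun w => t w.1.1.1.1) (fun w => t w.1.1.2)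
    (fun w => u (L w.1.2) (t w.2)) (fun w => n (L w.1.2) (t w.2)) Z x₁ x₂ y₁ y₂ a b hV
    (fun w hw => hT1 w (hsup w hw).1) (fun w hw => hT2 w (hsup w hw).1)
    (fun w hw => by
      obtain ⟨a1, a2, a3, a4, a5, a6, a7⟩ := P3_sup hp L G₁ G₂ (P4_pos hp L G₁ G₂ (hsup w hw).1).1
      exact (hdis _ _ _ _ a1 a2 a3 a4 a5 a6 a7 (t w.2) (hτ w (hsup w hw).1) (Z w)
        (by rw [hZ]; rfl)).1)
    (fun w hw => by
      obtain ⟨a1, a2, a3, a4, a5, a6, a7⟩ := P3_sup hp L G₁ G₂ (P4_pos hp L G₁ G₂ (hsup w hw).1).1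
      exact (hdis _ _ _ _ a1 a2 a3 a4 a5 a6 a7 (t w.2) (hτ w (hsup w hw).1) (Z w)
        (by rw [hZ]; rfl)).2.1)
    (fun w hw => by
      obtain ⟨a1, a2, a3, a4, a5, a6, a7⟩ := P3_sup hp L G₁ G₂ (P4_pos hp L G₁ G₂ (hsup w hw).1).1
      exact (hdis _ _ _ _ a1 a2 a3 a4 a5 a6 a7 (t w.2) (hτ w (hsup w hw).1) (Z w)
        (by rw [hZ]; rfl)).2.2.1)
    (fun w hw => by
      obtain ⟨a1, a2, a3, a4, a5, a6, a7⟩ := P3_sup hp L G₁ G₂ (P4_pos hp L G₁ G₂ (hsup w hw).1).1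
      exact (hdis _ _ _ _ a1 a2 a3 a4 a5 a6 a7 (t w.2) (hτ w (hsup w hw).1) (Z w)
        (by rw [hZ]; rfl)).2.2.2.1)
    (fun w hw => by
      obtain ⟨a1, a2, a3, a4, a5, a6, a7⟩ := P3_sup hp L G₁ G₂ (P4_pos hp L G₁ G₂ (hsup w hw).1).1
      exact (hdis _ _ _ _ a1 a2 a3 a4 a5 a6 a7 (t w.2) (hτ w (hsup w hw).1) (Z w)
        (by rw [hZ]; rfl)).2.2.2.2.1)
    (fun w hw => by
      obtain ⟨a1, a2, a3, a4, a5, a6, a7⟩ := P3_sup hp L G₁ G₂ (P4_pos hp L G₁ G₂ (hsup w hw).1).1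
      exact (hdis _ _ _ _ a1 a2 a3 a4 a5 a6 a7 (t w.2) (hτ w (hsup w hw).1) (Z w)
        (by rw [hZ]; rfl)).2.2.2.2.2)
    (fun w hw => by
      have := (hsup w hw).2.1
      rw [hφ] at this
      exact this)
    (fun w hw => by
      have := (hsup w hw).2.2
      rw [hφ] at this
      exact this)
  -- the nonfull coordinate
  have hd : CH Q (fun w => n (L w.1.2) (t w.2)) (fun w => (n (L w.1.2) (t w.2) / (m : ℤ),
      (u (L w.1.2) (t w.2), Z w))) ≤ U := by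
    have e1 : ∀ w, 0 < Q w → L w.1.2 = L w.2 := fun w hw => (P4_pos hp L G₁ G₂ (hsup w hw).1).2.2
    have e2 : ∀ w, 0 < Q w → C (L w.1.1.1.1) = C (L w.2) := fun w hw => by
      obtain ⟨a1, a2, a3, a4, a5, a6, a7⟩ := P3_sup hp L G₁ G₂ (P4_pos hp L G₁ G₂ (hsup w hw).1).1
      rw [(hG₁ _ _ a1 a2 a5).1, a6, (hG₂ _ _ a3 a4 a7).1, e1 w hw]
    have h1 : CH Q (fun w => n (L w.1.2) (t w.2)) (fun w => (n (L w.1.2) (t w.2) / (m : ℤ),
        (u (L w.1.2) (t w.2), Z w))) ≤ CH Q (fun w => n (L w.2) (t w.2))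
        (fun w => ((n (L w.2) (t w.2) / (m : ℤ), u (L w.2) (t w.2)),
          (t w.2, (C (L w.2), D (L w.2))))) := by
      have h2 : CH Q (fun w => n (L w.1.2) (t w.2)) (fun w => (n (L w.1.2) (t w.2) / (m : ℤ),
          (u (L w.1.2) (t w.2), Z w))) = CH Q (fun w => n (L w.2) (t w.2))
          (fun w => (n (L w.1.2) (t w.2) / (m : ℤ), (u (L w.1.2) (t w.2), Z w))) := by
        refine CH_congr hQlaw.nonneg ?_ ?_ (fun _ _ _ _ h => h) (fun _ _ _ _ h => h)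
        · intro w w' hw hw' hz
          have h3 := (Prod.ext_iff.mp hz).1
          try dsimp only at h3 ⊢
          rw [← e1 w hw, ← e1 w' hw', h3]
        · intro w w' hw hw' hz
          have h3 := (Prod.ext_iff.mp hz).1
          try dsimp only at h3 ⊢
          rw [e1 w hw, e1 w' hw', h3]
      rw [h2]
      refine CH_mono_cond hQlaw.nonneg fun w w' hw hw' hz => ?_
      try dsimp only at hz ⊢
      have z1 : n (L w.1.2) (t w.2) / (m : ℤ) = n (L w'.1.2) (t w'.2) / (m : ℤ) :=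
        (Prod.ext_iff.mp hz).1
      have z2 : u (L w.1.2) (t w.2) = u (L w'.1.2) (t w'.2) :=
        (Prod.ext_iff.mp (Prod.ext_iff.mp hz).2).1
      have z3 : Z w = Z w' := (Prod.ext_iff.mp (Prod.ext_iff.mp hz).2).2
      rw [hZ] at z3
      unfold zt at z3
      have z4 : t w.2 = t w'.2 := (Prod.ext_iff.mp z3).1
      have z5 : D (L w.1.2) = D (L w'.1.2) := (Prod.ext_iff.mp (Prod.ext_iff.mp z3).2).1
      have z6 : L w.1.1.1.1 = L w'.1.1.1.1 :=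
        (Prod.ext_iff.mp (Prod.ext_iff.mp (Prod.ext_iff.mp z3).2).2).2
      rw [← e2 w hw, ← e2 w' hw', ← e1 w hw, ← e1 w' hw', z1, z2, z4, z5, z6]
    refine h1.trans ?_
    have h3 : CH Q (fun w => n (L w.2) (t w.2)) (fun w => ((n (L w.2) (t w.2) / (m : ℤ),
        u (L w.2) (t w.2)), (t w.2, (C (L w.2), D (L w.2))))) =
        CH (fun ω => law Q (fun w => w.2) ω) (fun ω => n (L ω) (t ω))
          (fun ω => ((n (L ω) (t ω) / (m : ℤ), u (L ω) (t ω)), (t ω, (C (L ω), D (L ω))))) := by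
      unfold CH
      rw [← H_eq_of_marginal (q := Q) (p := fun ω => law Q (fun w => w.2) ω) (fun w => w.2)
        (fun ω => rfl) (fun ω => (n (L ω) (t ω), ((n (L ω) (t ω) / (m : ℤ), u (L ω) (t ω)),
          (t ω, (C (L ω), D (L ω)))))),
        ← H_eq_of_marginal (q := Q) (p := fun ω => law Q (fun w => w.2) ω) (fun w => w.2)
        (fun ω => rfl) (fun ω => ((n (L ω) (t ω) / (m : ℤ), u (L ω) (t ω)),
          (t ω, (C (L ω), D (L ω)))))]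
    rw [h3]
    refine hNF _ ⟨fun ω => law_nonneg hQlaw.nonneg _ _, ?_⟩ fun ω => ?_
    · have h4 : ∑ ω, law Q (fun w => w.2) ω = ∑ w, Q w := by
        unfold law
        rw [Finset.sum_comm]
        refine Finset.sum_congr rfl fun w _ => ?_
        rw [Finset.sum_ite_eq]
        simp
      rw [h4, hQlaw.sum_one]
    · have h4 : law Q (fun w => w.2) ω ≤ R * law P (fun w => w.2) ω := by
        unfold law
        rw [Finset.mul_sum]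
        refine Finset.sum_le_sum fun w _ => ?_
        by_cases hu : w.2 = ω
        · rw [if_pos hu, if_pos hu, hQ]
          unfold Pool.Agent.H49.Ent.cond
          split_ifs
          · rw [div_le_iff₀ hE0]
            have h5 : 1 ≤ R * law P E True := by
              have := mul_le_mul_of_nonneg_left hcon hR.le
              rwa [mul_one_div_cancel hR.ne'] at this
            have h6 := hL4.nonneg w
            nlinarith
          · exact mul_nonneg hR.le (hL4.nonneg w)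
        · rw [if_neg hu, if_neg hu, mul_zero]
      have h5 : law P (fun w => w.2) ω = p ω := by
        rw [hP]
        exact (P4_s hp L G₁ G₂) ω
      rwa [h5] at h4
  have hFr : (1 : ℝ) ≤ F := by exact_mod_cast hF1
  have hFM : (1 : ℝ) ≤ (MT : ℝ) := by
    rw [hMT]
    push_cast
    nlinarith
  have hlog : Real.log (MT : ℝ) ≤ Real.log (2 * (MT : ℝ) + 1) :=
    Real.log_le_log (by linarith) (by linarith)
  linarith

end Pool.PT46
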