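import Pool.Agent.H46.PR.Two

/-!
# The entropy core with fine times

`wdg_fine`: the two times are integers of absolute value at most `MT`, a multiple of the size `M` of the
displacements.
-/

set_option autoImplicit false

namespace Pool.PT46

open Finset Real
open Pool.Agent.H49.Ent Pool.Agent.H32.Dense Pool.STK Pool.OWN68 Pool.PR46
open Pool.BFL (Pb)

theorem fine_abs {F M : ℕ} (hF : 1 ≤ F) {s : ℤ} (h : |s| ≤ ((F * M : ℕ) : ℤ)) :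
    |s / (F : ℤ)| ≤ (M : ℤ) := by
  have hF0 : (0 : ℤ) < F := by exact_mod_cast hF
  obtain ⟨h1, h2⟩ := abs_le.mp h
  push_cast at h1 h2
  rw [abs_le]
  constructor
  · rw [Int.le_ediv_iff_mul_le hF0]
    linarith
  · refine Int.le_of_lt_add_one ?_
    rw [Int.ediv_lt_iff_lt_mul hF0]
    nlinarith

open Classical in
/-- **The entropy core, fine times.** -/
theorem wdg_fine {Ω ζ : Type} [Fintype Ω] {q : Ω → ℝ} (hq : IsLaw q) {M F MT K m : ℕ} (hM : 1 ≤ M)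
    (hF : 1 ≤ F) (hMT : MT = F * M) (T1 T2 un nn : Ω → ℤ) (Z : Ω → ζ) (x₁ x₂ y₁ y₂ a b : ζ → ℝ) {V : ℝ} (hV : 1 ≤ V)
    (h1 : ∀ ω, 0 < q ω → |T1 ω| ≤ (MT : ℤ))
    (h2 : ∀ ω, 0 < q ω → |T2 ω| ≤ (MT : ℤ))
    (hx₁ : ∀ ω, 0 < q ω → |x₁ (Z ω)| ≤ M) (hx₂ : ∀ ω, 0 < q ω → |x₂ (Z ω)| ≤ M)
    (hy₁ : ∀ ω, 0 < q ω → |y₁ (Z ω)| ≤ M) (hy₂ : ∀ ω, 0 < q ω → |y₂ (Z ω)| ≤ M)
    (hu : ∀ ω, 0 < q ω →
      |(un ω : ℝ) - (a (Z ω) - (x₁ (Z ω) * T1 ω + x₂ (Z ω) * T2 ω) / (MT : ℝ))| ≤ K)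
    (hn : ∀ ω, 0 < q ω →
      |(nn ω : ℝ) - (b (Z ω) - (y₁ (Z ω) * T1 ω + y₂ (Z ω) * T2 ω) / (MT : ℝ))| ≤ K)
    (hV1 : ∀ ω, 0 < q ω → V ≤ frq (x₁ (Z ω)) (x₂ (Z ω)) (y₁ (Z ω)) (y₂ (Z ω)))
    (hV2 : ∀ ω, 0 < q ω → frq (x₁ (Z ω)) (x₂ (Z ω)) (y₁ (Z ω)) (y₂ (Z ω)) ≤ m) :
    CH q (fun ω => (T1 ω, T2 ω)) Z - 2 * Real.log (MT : ℝ) + Real.log V -
      Real.log (cst K) ≤ CH q nn (fun ω => (nn ω / m, (un ω, Z ω))) := by
  subst hMT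
  have h0 := hq.nonneg
  have hFr : (1 : ℝ) ≤ F := by exact_mod_cast hF
  have hF0 : (0 : ℝ) < F := by linarith
  have hFz : (0 : ℤ) < F := by exact_mod_cast hF
  have hMr : (1 : ℝ) ≤ M := by exact_mod_cast hM
  have hM0 : (0 : ℝ) < M := by linarith
  have hFM : ((F * M : ℕ) : ℝ) = F * M := by push_cast; rfl
  have hsp : ∀ s : ℤ, (s : ℝ) = F * ((s / (F : ℤ) : ℤ) : ℝ) + ((s % (F : ℤ) : ℤ) : ℝ) := by
    intro s
    have h := Int.mul_ediv_add_emod s (F : ℤ)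
    have h' : ((F * (s / (F : ℤ)) + s % (F : ℤ) : ℤ) : ℝ) = (s : ℝ) := by rw [h]
    push_cast at h'
    linarith
  have key := wdg_core hq (K := K) (m := m) hM (fun ω => T1 ω / (F : ℤ)) (fun ω => T2 ω / (F : ℤ))
    un nn (fun ω => (Z ω, (T1 ω % (F : ℤ), T2 ω % (F : ℤ))))
    (fun z => x₁ z.1) (fun z => x₂ z.1) (fun z => y₁ z.1) (fun z => y₂ z.1)
    (fun z => a z.1 - (x₁ z.1 * z.2.1 + x₂ z.1 * z.2.2) / (F * M))
    (fun z => b z.1 - (y₁ z.1 * z.2.1 + y₂ z.1 * z.2.2) / (F * M)) hV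
    (fun ω hω => fine_abs hF (h1 ω hω)) (fun ω hω => fine_abs hF (h2 ω hω)) hx₁ hx₂ hy₁ hy₂
    (fun ω hω => by
      have h := hu ω hω
      rw [hFM] at h
      refine le_trans (le_of_eq ?_) h
      dsimp only
      congr 1
      rw [hsp (T1 ω), hsp (T2 ω)]
      push_cast
      field_simp
      ring)
    (fun ω hω => by
      have h := hn ω hω
      rw [hFM] at h
      refine le_trans (le_of_eq ?_) h
      dsimp only
      congr 1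
      rw [hsp (T1 ω), hsp (T2 ω)]
      push_cast
      field_simp
      ring) hV1 hV2
  -- the fine parts
  obtain ⟨f1, hf1⟩ : ∃ f1 : Ω → ℤ, f1 = fun ω => T1 ω % (F : ℤ) := ⟨_, rfl⟩
  obtain ⟨f2, hf2⟩ : ∃ f2 : Ω → ℤ, f2 = fun ω => T2 ω % (F : ℤ) := ⟨_, rfl⟩
  obtain ⟨c1, hc1⟩ : ∃ c1 : Ω → ℤ, c1 = fun ω => T1 ω / (F : ℤ) := ⟨_, rfl⟩
  obtain ⟨c2, hc2⟩ : ∃ c2 : Ω → ℤ, c2 = fun ω => T2 ω / (F : ℤ) := ⟨_, rfl⟩
  have hbd : ∀ {T : Type} (g : Ω → ℤ) (Y : Ω → T), (∀ ω, 0 ≤ g ω ∧ g ω < F) →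
      CH q g Y ≤ Real.log F := by
    intro T g Y hg
    refine (CH_le_card h0 hq.sum_one g Y (fun _ => Finset.Ico 0 (F : ℤ)) fun ω _ => by
      rw [Finset.mem_Ico]
      exact hg ω).trans (le_of_eq ?_)
    rw [Int.card_Ico, sub_zero, Int.toNat_natCast]
    unfold Ex
    rw [← Finset.sum_mul, hq.sum_one, one_mul]
  have e1 := hbd f1 Z fun ω => by
    rw [hf1]
    exact ⟨Int.emod_nonneg _ hFz.ne', Int.emod_lt_of_pos _ hFz⟩
  have e2 := hbd f2 (fun ω => (f1 ω, Z ω)) fun ω => by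
    rw [hf2]
    exact ⟨Int.emod_nonneg _ hFz.ne', Int.emod_lt_of_pos _ hFz⟩
  have e3 : CH q (fun ω => (f2 ω, f1 ω)) Z = CH q f1 Z + CH q f2 (fun ω => (f1 ω, Z ω)) :=
    CH_chain h0 f2 f1 Z
  have e4 := CH_le_add h0 (fun ω => (T1 ω, T2 ω)) (fun ω => (f2 ω, f1 ω)) Z
  have e5 : CH q (fun ω => (T1 ω, T2 ω)) (fun ω => ((f2 ω, f1 ω), Z ω)) ≤
      CH q (fun ω => (c1 ω, c2 ω)) (fun ω => (Z ω, (f1 ω, f2 ω))) := by
    have g1 : CH q (fun ω => (T1 ω, T2 ω)) (fun ω => ((f2 ω, f1 ω), Z ω)) ≤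
        CH q (fun ω => (c1 ω, c2 ω)) (fun ω => ((f2 ω, f1 ω), Z ω)) := by
      refine CH_mono_left h0 fun ω ω' _ _ hz => ?_
      have z1 := Prod.ext_iff.mp hz
      have z2 := Prod.ext_iff.mp z1.1
      have z3 := Prod.ext_iff.mp (Prod.ext_iff.mp z1.2).1
      have y1 : c1 ω = c1 ω' := z2.1
      have y2 : c2 ω = c2 ω' := z2.2
      have y3 : f2 ω = f2 ω' := z3.1
      have y4 : f1 ω = f1 ω' := z3.2
      rw [hc1] at y1
      rw [hc2] at y2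
      rw [hf1] at y4
      rw [hf2] at y3
      dsimp only at y1 y2 y3 y4
      have a1 := Int.mul_ediv_add_emod (T1 ω) (F : ℤ)
      have a2 := Int.mul_ediv_add_emod (T1 ω') (F : ℤ)
      have a3 := Int.mul_ediv_add_emod (T2 ω) (F : ℤ)
      have a4 := Int.mul_ediv_add_emod (T2 ω') (F : ℤ)
      rw [y1, y4] at a1
      rw [y2, y3] at a3
      exact Prod.ext (a1.symm.trans a2) (a3.symm.trans a4)
    refine g1.trans (CH_mono_cond h0 fun ω ω' _ _ hz => ?_)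
    have z1 := Prod.ext_iff.mp hz
    have z2 := Prod.ext_iff.mp z1.1
    exact Prod.ext z1.2 (Prod.ext z2.2 z2.1)
  have e6 : CH q nn (fun ω => (nn ω / (m : ℤ), (un ω, (Z ω, (f1 ω, f2 ω))))) ≤
      CH q nn (fun ω => (nn ω / (m : ℤ), (un ω, Z ω))) :=
    CH_mono_cond h0 fun ω ω' _ _ hz => by
      have z1 := Prod.ext_iff.mp hz
      have z2 := Prod.ext_iff.mp z1.2
      have z3 := Prod.ext_iff.mp z2.2
      exact Prod.ext z1.1 (Prod.ext z2.1 z3.1)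
  have key' : CH q (fun ω => (c1 ω, c2 ω)) (fun ω => (Z ω, (f1 ω, f2 ω))) - 2 * Real.log M +
      Real.log V - Real.log (cst K) ≤
      CH q nn (fun ω => (nn ω / (m : ℤ), (un ω, (Z ω, (f1 ω, f2 ω))))) := by
    rw [hf1, hf2, hc1, hc2]
    exact key
  have e7 : Real.log ((F * M : ℕ) : ℝ) = Real.log F + Real.log M := by
    rw [hFM, Real.log_mul hF0.ne' hM0.ne']
  rw [e7]
  linarith

end Pool.PT46
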